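import Pool.Agent.Q30.AM.Low

/-!
# The orders of the two groups
-/

set_option autoImplicit false

namespace Q30.AM

theorem card_HH : Fintype.card HH = 24 := by decide +kernel
theorem card_V5 : Fintype.card V5 = 25 := by decide +kernel
theorem card_Q : (Finset.univ.filter fun h : HH => c h = 0).card = 8 := by decide +kernel

theorem card_GG : Nat.card GG = 600 := by
  rw [Nat.card_congr eqv.symm, Nat.card_prod, Nat.card_eq_fintype_card, Nat.card_eq_fintype_card,
    card_HH, card_V5]

theorem mem_K {x : GG} : x ∈ commutator GG ↔ c x.h = 0 := by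
  refine ⟨mem_K_c, fun h => ?_⟩
  have e : x = ⟨x.v, 1⟩ * ⟨0, x.h⟩ := by
    apply GG.ext
    · simp only [mul_v, act_one, add_zero]
    · change x.h = 1 * x.h
      rw [one_mul]
  rw [e]
  exact mul_mem (trans_mem _) (rot_mem h)

/-- the elements of the derived subgroup -/
def eqK : ↥(commutator GG) ≃ V5 × {h : HH // c h = 0} where
  toFun x := (x.1.v, ⟨x.1.h, mem_K_c x.2⟩)
  invFun p := ⟨⟨p.1, p.2.1⟩, mem_K.2 p.2.2⟩
  left_inv _ := rfl
  right_inv _ := rfl

theorem card_K : Nat.card ↥(commutator GG) = 200 := by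
  rw [Nat.card_congr eqK, Nat.card_prod, Nat.card_eq_fintype_card, Nat.card_eq_fintype_card,
    card_V5, Fintype.card_subtype, card_Q]

end Q30.AM
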