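import Pool.Agent.Helper884.IC.Compl

/-!
# The amenability constant of the central Fourier algebra: definitions and first lemmas
-/

set_option autoImplicit false

open scoped BigOperators Classical
open Pool.Agent.Helper884.IC

noncomputable section

namespace Q30.AM

/-- `AMZA(G)` by the formula of Alaghmandan and Spronk; `Irr G` is the set of irreducible complex
characters. -/
def AMZA (G : Type) [Group G] [Fintype G] : ℝ :=
  ((Nat.card G : ℝ) ^ 2)⁻¹ * ∑ χ ∈ Irr G, ∑ ψ ∈ Irr G, ‖χ 1‖ * ‖ψ 1‖ *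
    ‖∑ C : ConjClasses G, (Nat.card C.carrier : ℂ) ^ 2 * χ (Quotient.out C) *
      (starRingEnd ℂ) (ψ (Quotient.out C))‖

variable {G : Type} [Group G] [Fintype G]

/-- coefficients of a function of two variables -/
def cf (F : G → G → ℂ) (χ ψ : G → ℂ) : ℂ :=
  (Nat.card G : ℂ)⁻¹ ^ 2 * ∑ x : G, ∑ y : G, F x y * (χ x⁻¹ * ψ y⁻¹)

/-- the norm -/
def N (F : G → G → ℂ) : ℝ := ∑ χ ∈ Irr G, ∑ ψ ∈ Irr G, ‖χ 1‖ * ‖ψ 1‖ * ‖cf F χ ψ‖

theorem cf_add (F F' : G → G → ℂ) (χ ψ : G → ℂ) :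
    cf (F + F') χ ψ = cf F χ ψ + cf F' χ ψ := by
  simp only [cf, Pi.add_apply, add_mul, Finset.sum_add_distrib, mul_add]

theorem cf_smul (c : ℂ) (F : G → G → ℂ) (χ ψ : G → ℂ) :
    cf (c • F) χ ψ = c * cf F χ ψ := by
  simp only [cf, Pi.smul_apply, smul_eq_mul, mul_assoc, ← Finset.mul_sum]
  ring

theorem N_add (F F' : G → G → ℂ) : N (F + F') ≤ N F + N F' := by
  unfold N
  rw [← Finset.sum_add_distrib]
  refine Finset.sum_le_sum fun χ _ => ?_
  rw [← Finset.sum_add_distrib]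
  refine Finset.sum_le_sum fun ψ _ => ?_
  rw [cf_add, ← mul_add]
  exact mul_le_mul_of_nonneg_left (norm_add_le _ _) (by positivity)

theorem N_smul (c : ℂ) (F : G → G → ℂ) : N (c • F) = ‖c‖ * N F := by
  unfold N
  rw [Finset.mul_sum]
  refine Finset.sum_congr rfl fun χ _ => ?_
  rw [Finset.mul_sum]
  refine Finset.sum_congr rfl fun ψ _ => ?_
  rw [cf_smul, norm_mul]
  ring

/-- nonnegative coefficients -/
def Pos (α : G → ℂ) : Prop := IsClass α ∧ ∀ χ, IsIrrChar χ → ∃ t : ℝ, 0 ≤ t ∧ B α χ = t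

theorem irr_one {χ : G → ℂ} (h : IsIrrChar χ) : ∃ n : ℕ, χ 1 = n := by
  obtain ⟨W, _, _, _, sigma, _, rfl⟩ := h
  exact ⟨_, Representation.char_one sigma⟩

theorem rep_nonneg {V W : Type} [AddCommGroup V] [Module ℂ V] [FiniteDimensional ℂ V]
    [AddCommGroup W] [Module ℂ W] [FiniteDimensional ℂ W]
    (rho : Representation ℂ G V) (sigma : Representation ℂ G W) :
    ∃ n : ℕ, B rho.character sigma.character = n := by
  haveI : Invertible (Nat.card G : ℂ) := invertibleOfNonzero cardG_ne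
  exact ⟨_, Representation.card_inv_mul_sum_char_mul_char_eq_finrank sigma rho⟩

theorem pos_rep {V : Type} [AddCommGroup V] [Module ℂ V] [FiniteDimensional ℂ V]
    (rho : Representation ℂ G V) : Pos rho.character := by
  refine ⟨isClass_char rho, fun χ hχ => ?_⟩
  obtain ⟨W, _, _, _, sigma, _, rfl⟩ := hχ
  obtain ⟨n, hn⟩ := rep_nonneg rho sigma
  exact ⟨n, by positivity, by rw [hn]; norm_cast⟩

theorem pos_sum {α : G → ℂ} (h : Pos α) : ((∑ χ ∈ Irr G, ‖χ 1‖ * ‖B α χ‖ : ℝ) : ℂ) = α 1 := by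
  have hexp := congrFun (expand _ h.1) 1
  rw [Finset.sum_apply] at hexp
  have e : α 1 = ∑ ψ ∈ Irr G, B α ψ * ψ 1 := by simpa using hexp
  rw [e]
  push_cast
  refine Finset.sum_congr rfl fun ψ hψ => ?_
  obtain ⟨t, ht, ht'⟩ := h.2 ψ (mem_Irr.1 hψ)
  obtain ⟨m, hm⟩ := irr_one (mem_Irr.1 hψ)
  rw [ht', hm, Complex.norm_real, Real.norm_of_nonneg ht]
  simp [mul_comm]

theorem pos_sum' {α : G → ℂ} (h : Pos α) : ∑ χ ∈ Irr G, ‖χ 1‖ * ‖B α χ‖ = ‖α 1‖ := by
  have h2 : 0 ≤ ∑ χ ∈ Irr G, ‖χ 1‖ * ‖B α χ‖ := Finset.sum_nonneg fun _ _ => by positivity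
  rw [← pos_sum h, Complex.norm_real, Real.norm_of_nonneg h2]

theorem cf_tensor (α β χ ψ : G → ℂ) :
    cf (fun x y => α x * β y) χ ψ = B α χ * B β ψ := by
  unfold cf B
  have h : ∑ x : G, ∑ y : G, α x * β y * (χ x⁻¹ * ψ y⁻¹) =
      (∑ x : G, α x * χ x⁻¹) * ∑ y : G, β y * ψ y⁻¹ := by
    rw [Finset.sum_mul_sum]
    refine Finset.sum_congr rfl fun x _ => Finset.sum_congr rfl fun y _ => ?_
    ring
  rw [h]
  ring

theorem N_tensor {α β : G → ℂ} (hα : Pos α) (hβ : Pos β) :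
    N (fun x y => α x * β y) = ‖α 1‖ * ‖β 1‖ := by
  rw [← pos_sum' hα, ← pos_sum' hβ, Finset.sum_mul_sum]
  unfold N
  refine Finset.sum_congr rfl fun χ _ => Finset.sum_congr rfl fun ψ _ => ?_
  rw [cf_tensor, norm_mul]
  ring

/-- expansion in two variables -/
theorem expand2 {F : G → G → ℂ} (h1 : ∀ y, IsClass fun x => F x y) (h2 : ∀ x, IsClass (F x))
    (x y : G) : F x y = ∑ χ ∈ Irr G, ∑ ψ ∈ Irr G, cf F χ ψ * (χ x * ψ y) := by
  have e1 : F x y = ∑ χ ∈ Irr G, B (fun x => F x y) χ * χ x := by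
    have := congrFun (expand _ (h1 y)) x
    simpa [Finset.sum_apply] using this
  rw [e1]
  refine Finset.sum_congr rfl fun χ hχ => ?_
  set g : G → ℂ := fun y => B (fun x => F x y) χ with hg
  have hcl : IsClass g := by
    intro a b
    rw [hg]
    simp only [B]
    congr 1
    refine Finset.sum_congr rfl fun x _ => ?_
    rw [h2 x a b]
  have e2 : g y = ∑ ψ ∈ Irr G, B g ψ * ψ y := by
    have := congrFun (expand _ hcl) y
    simpa [Finset.sum_apply] using this
  change g y * χ x = _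
  rw [e2, Finset.sum_mul]
  refine Finset.sum_congr rfl fun ψ _ => ?_
  have e3 : B g ψ = cf F χ ψ := by
    unfold cf
    rw [hg]
    simp only [B]
    simp only [Finset.mul_sum, Finset.sum_mul]
    rw [Finset.sum_comm]
    refine Finset.sum_congr rfl fun a _ => Finset.sum_congr rfl fun b _ => ?_
    ring
  rw [e3]
  ring

/-- the lower bound by restriction to a subgroup and a certificate -/
theorem lower {V U : Type} [Group V] [Fintype V] [Fintype U] (ι : V →* G) (lam : U → V → ℂ)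
    (hlam : ∀ u, ∃ (W : Type) (_ : AddCommGroup W) (_ : Module ℂ W) (_ : FiniteDimensional ℂ W)
      (rho : Representation ℂ V W), lam u = rho.character)
    (hsum : ∀ v, ∑ u, lam u v = if v = 1 then (Nat.card V : ℂ) else 0)
    (ε : U → U → ℂ) (hε : ∀ u w, ‖ε u w‖ ≤ 1) {F : G → G → ℂ}
    (h1 : ∀ y, IsClass fun x => F x y) (h2 : ∀ x, IsClass (F x)) :
    ‖(Nat.card V : ℂ)⁻¹ ^ 2 * ∑ v : V, ∑ w : V, F (ι v) (ι w) *
      ∑ a : U, ∑ b : U, ε a b * (lam a v⁻¹ * lam b w⁻¹)‖ ≤ N F := by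
  -- multiplicities
  have hm : ∀ χ, IsIrrChar χ → ∀ u, ∃ n : ℕ, B (fun v => χ (ι v)) (lam u) = n := by
    intro χ hχ u
    obtain ⟨W, _, _, _, sigma, _, rfl⟩ := hχ
    obtain ⟨W', _, _, _, rho, hr⟩ := hlam u
    rw [hr]
    exact rep_nonneg (MonoidHom.comp sigma ι) rho
  have hms : ∀ χ, IsIrrChar χ → ∑ u, ‖B (fun v => χ (ι v)) (lam u)‖ = ‖χ 1‖ := by
    intro χ hχ
    have e1 : ∑ u, B (fun v => χ (ι v)) (lam u) = χ 1 := by
      simp only [B]
      rw [← Finset.mul_sum, Finset.sum_comm]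
      have : ∀ v : V, ∑ u, χ (ι v) * lam u v⁻¹ =
          if v = 1 then χ 1 * (Nat.card V : ℂ) else 0 := by
        intro v
        rw [← Finset.mul_sum, hsum]
        by_cases hv : v = 1
        · subst hv; simp
        · rw [if_neg hv, if_neg (by simpa using hv), mul_zero]
      rw [Finset.sum_congr rfl fun v _ => this v, Finset.sum_ite_eq' Finset.univ (1 : V)]
      simp only [Finset.mem_univ, if_true]
      have := cardG_ne (G := V)
      field_simp
    have e2 : ((∑ u, ‖B (fun v => χ (ι v)) (lam u)‖ : ℝ) : ℂ) = χ 1 := by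
      rw [← e1]
      push_cast
      refine Finset.sum_congr rfl fun u _ => ?_
      obtain ⟨n, hn⟩ := hm χ hχ u
      rw [hn]
      simp
    have h3 : 0 ≤ ∑ u, ‖B (fun v => χ (ι v)) (lam u)‖ :=
      Finset.sum_nonneg fun _ _ => norm_nonneg _
    rw [← e2, Complex.norm_real, Real.norm_of_nonneg h3]
  have key : (Nat.card V : ℂ)⁻¹ ^ 2 * ∑ v : V, ∑ w : V, F (ι v) (ι w) *
      ∑ a : U, ∑ b : U, ε a b * (lam a v⁻¹ * lam b w⁻¹) =
      ∑ χ ∈ Irr G, ∑ ψ ∈ Irr G, cf F χ ψ * ∑ a : U, ∑ b : U, ε a b *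
        (B (fun v => χ (ι v)) (lam a) * B (fun v => ψ (ι v)) (lam b)) := by
    have e1 : ∀ v w : V, F (ι v) (ι w) * ∑ a : U, ∑ b : U, ε a b * (lam a v⁻¹ * lam b w⁻¹) =
        ∑ χ ∈ Irr G, ∑ ψ ∈ Irr G, ∑ a : U, ∑ b : U, cf F χ ψ * (ε a b *
          ((χ (ι v) * lam a v⁻¹) * (ψ (ι w) * lam b w⁻¹))) := by
      intro v w
      rw [expand2 h1 h2 (ι v) (ι w), Finset.sum_mul]
      refine Finset.sum_congr rfl fun χ _ => ?_
      rw [Finset.sum_mul]
      refine Finset.sum_congr rfl fun ψ _ => ?_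
      rw [Finset.mul_sum]
      refine Finset.sum_congr rfl fun a _ => ?_
      rw [Finset.mul_sum]
      refine Finset.sum_congr rfl fun b _ => ?_
      ring
    have e2 : ∑ v : V, ∑ w : V, F (ι v) (ι w) *
        ∑ a : U, ∑ b : U, ε a b * (lam a v⁻¹ * lam b w⁻¹) =
        ∑ χ ∈ Irr G, ∑ ψ ∈ Irr G, ∑ a : U, ∑ b : U, cf F χ ψ * (ε a b *
          ((∑ v : V, χ (ι v) * lam a v⁻¹) * (∑ w : V, ψ (ι w) * lam b w⁻¹))) := by
      simp only [e1]
      calc ∑ v : V, ∑ w : V, ∑ χ ∈ Irr G, ∑ ψ ∈ Irr G, ∑ a : U, ∑ b : U, cf F χ ψ * (ε a b *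
          ((χ (ι v) * lam a v⁻¹) * (ψ (ι w) * lam b w⁻¹)))
          = ∑ v : V, ∑ χ ∈ Irr G, ∑ ψ ∈ Irr G, ∑ a : U, ∑ b : U, cf F χ ψ * (ε a b *
          ((χ (ι v) * lam a v⁻¹) * (∑ w : V, ψ (ι w) * lam b w⁻¹))) := by
            refine Finset.sum_congr rfl fun v _ => ?_
            rw [Finset.sum_comm]
            refine Finset.sum_congr rfl fun χ _ => ?_
            rw [Finset.sum_comm]
            refine Finset.sum_congr rfl fun ψ _ => ?_
            rw [Finset.sum_comm]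
            refine Finset.sum_congr rfl fun a _ => ?_
            rw [Finset.sum_comm]
            refine Finset.sum_congr rfl fun b _ => ?_
            simp only [Finset.mul_sum]
        _ = _ := by
            rw [Finset.sum_comm]
            refine Finset.sum_congr rfl fun χ _ => ?_
            rw [Finset.sum_comm]
            refine Finset.sum_congr rfl fun ψ _ => ?_
            rw [Finset.sum_comm]
            refine Finset.sum_congr rfl fun a _ => ?_
            rw [Finset.sum_comm]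
            refine Finset.sum_congr rfl fun b _ => ?_
            rw [Finset.sum_mul, Finset.mul_sum, Finset.mul_sum]
    rw [e2, Finset.mul_sum]
    refine Finset.sum_congr rfl fun χ _ => ?_
    rw [Finset.mul_sum]
    refine Finset.sum_congr rfl fun ψ _ => ?_
    rw [Finset.mul_sum, Finset.mul_sum]
    refine Finset.sum_congr rfl fun a _ => ?_
    rw [Finset.mul_sum, Finset.mul_sum]
    refine Finset.sum_congr rfl fun b _ => ?_
    simp only [B]
    ring
  rw [key]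
  unfold N
  refine (norm_sum_le _ _).trans (Finset.sum_le_sum fun χ hχ => ?_)
  refine (norm_sum_le _ _).trans (Finset.sum_le_sum fun ψ hψ => ?_)
  rw [norm_mul, mul_comm]
  refine mul_le_mul_of_nonneg_right ?_ (norm_nonneg _)
  rw [← hms χ (mem_Irr.1 hχ), ← hms ψ (mem_Irr.1 hψ), Finset.sum_mul_sum]
  refine (norm_sum_le _ _).trans (Finset.sum_le_sum fun a _ => ?_)
  refine (norm_sum_le _ _).trans (Finset.sum_le_sum fun b _ => ?_)
  rw [norm_mul, norm_mul]
  calc ‖ε a b‖ * (‖B (fun v => χ (ι v)) (lam a)‖ * ‖B (fun v => ψ (ι v)) (lam b)‖)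
      ≤ 1 * (‖B (fun v => χ (ι v)) (lam a)‖ * ‖B (fun v => ψ (ι v)) (lam b)‖) :=
        mul_le_mul_of_nonneg_right (hε a b) (by positivity)
    _ = _ := one_mul _

end Q30.AM
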