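import Pool.Agent.Q30.AM.Def
import Pool.Agent.W540.BE.Rep

/-!
# The constant as a norm of a function of two variables
-/

set_option autoImplicit false

open scoped BigOperators Classical
open Pool.Agent.Helper884.IC

noncomputable section

namespace Q30.AM

variable {G : Type} [Group G] [Fintype G]

theorem char_conj' {χ : G → ℂ} (h : IsIrrChar χ) (g : G) :
    (starRingEnd ℂ) (χ g) = χ g⁻¹ := by
  obtain ⟨V, _, _, _, rho, _, rfl⟩ := h
  let b := Module.finBasis ℂ V
  let e := LinearMap.toMatrixAlgEquiv b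
  have h0 : 0 < Nat.card G := Nat.card_pos
  obtain ⟨k, hk⟩ : ∃ k, Nat.card G = k + 1 := ⟨Nat.card G - 1, by omega⟩
  have hgg : rho g * rho g⁻¹ = 1 := by rw [← map_mul, mul_inv_cancel, map_one]
  have hpow : rho g ^ (k + 1) = 1 := by rw [← map_pow, ← hk, pow_card_eq_one', map_one]
  have h1 := Pool.Agent.W540.BE.trace_conj_matrix (e (rho g)) (e (rho g⁻¹))
    (by rw [← map_mul, hgg, map_one]) (k := k) (by rw [← map_pow, hpow, map_one])
  have h2 : ∀ x, rho.character x = (e (rho x)).trace := by
    intro x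
    change LinearMap.trace ℂ V (rho x) = _
    rw [LinearMap.trace_eq_matrix_trace ℂ b]
    rfl
  rw [h2, h2]
  exact h1

theorem class_sum (f k : G → ℂ) (hf : IsClass f) (hk : IsClass k) :
    ∑ x : G, ∑ y : G, (if IsConj x y then (1 : ℂ) else 0) * (f x * k y) =
      ∑ C : ConjClasses G, (Nat.card C.carrier : ℂ) ^ 2 * f (Quotient.out C) *
        k (Quotient.out C) := by
  have hout : ∀ C : ConjClasses G, ∀ x : G, ConjClasses.mk x = C → IsConj x (Quotient.out C) := by
    intro C x hx
    rw [← ConjClasses.mk_eq_mk_iff_isConj, hx]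
    exact (Quotient.out_eq C).symm
  have hcl : ∀ u : G → ℂ, IsClass u → ∀ C : ConjClasses G, ∀ x : G, ConjClasses.mk x = C →
      u x = u (Quotient.out C) := by
    intro u hu C x hx
    obtain ⟨c, hc⟩ := isConj_iff.1 (hout C x hx)
    rw [← hc, hu]
  have hcard : ∀ C : ConjClasses G, ((Finset.univ.filter fun x : G => ConjClasses.mk x = C).card : ℂ)
      = (Nat.card C.carrier : ℂ) := by
    intro C
    congr 1
    rw [Nat.card_eq_fintype_card, ← Fintype.card_subtype]
    apply Fintype.card_congr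
    refine Equiv.subtypeEquivRight fun x => ?_
    rw [ConjClasses.mem_carrier_iff_mk_eq]
  rw [← Finset.sum_fiberwise (s := Finset.univ) (g := fun x : G => ConjClasses.mk x)]
  refine Finset.sum_congr rfl fun C _ => ?_
  have h1 : ∀ x ∈ Finset.univ.filter (fun x : G => ConjClasses.mk x = C),
      ∑ y : G, (if IsConj x y then (1 : ℂ) else 0) * (f x * k y) =
        f (Quotient.out C) * ((Nat.card C.carrier : ℂ) * k (Quotient.out C)) := by
    intro x hx
    rw [Finset.mem_filter] at hx
    have h2 : ∀ y : G, (if IsConj x y then (1 : ℂ) else 0) * (f x * k y) =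
        if ConjClasses.mk y = C then f (Quotient.out C) * k (Quotient.out C) else 0 := by
      intro y
      by_cases hy : ConjClasses.mk y = C
      · have hxy : IsConj x y := by
          rw [← ConjClasses.mk_eq_mk_iff_isConj, hx.2, hy]
        rw [if_pos hxy, if_pos hy, one_mul, hcl f hf C x hx.2, hcl k hk C y hy]
      · have hxy : ¬ IsConj x y := by
          intro h
          apply hy
          rw [← hx.2]
          exact (ConjClasses.mk_eq_mk_iff_isConj.2 h).symm
        rw [if_neg hxy, if_neg hy, zero_mul]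
    rw [Finset.sum_congr rfl fun y _ => h2 y, ← Finset.sum_filter, Finset.sum_const, nsmul_eq_mul,
      hcard]
    ring
  rw [Finset.sum_congr rfl h1, Finset.sum_const, nsmul_eq_mul, hcard]
  ring

theorem inv_sum (g : G → ℂ) : ∑ x : G, g x⁻¹ = ∑ x : G, g x :=
  Equiv.sum_comp (Equiv.inv G) g

theorem cf_eq {χ ψ : G → ℂ} (hχ : IsIrrChar χ) (hψ : IsIrrChar ψ) :
    ∑ x : G, ∑ y : G, (if IsConj x⁻¹ y then (1 : ℂ) else 0) * (χ x⁻¹ * ψ y⁻¹) =
      ∑ C : ConjClasses G, (Nat.card C.carrier : ℂ) ^ 2 *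
        χ (Quotient.out C) * (starRingEnd ℂ) (ψ (Quotient.out C)) := by
  have h1 := hχ.isClass
  have h2 := hψ.isClass
  have hk : IsClass fun g => (starRingEnd ℂ) (ψ g) := by
    intro g y
    simp only [h2 g y]
  have e1 := class_sum χ (fun g => (starRingEnd ℂ) (ψ g)) h1 hk
  rw [← e1, ← inv_sum]
  refine Finset.sum_congr rfl fun x _ => Finset.sum_congr rfl fun y _ => ?_
  rw [char_conj' hψ]
  simp only [inv_inv]

theorem AMZA_eq : AMZA G = N fun x y : G => if IsConj x⁻¹ y then (1 : ℂ) else 0 := by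
  unfold AMZA N
  rw [Finset.mul_sum]
  refine Finset.sum_congr rfl fun χ hχ => ?_
  rw [Finset.mul_sum]
  refine Finset.sum_congr rfl fun ψ hψ => ?_
  unfold cf
  rw [cf_eq (mem_Irr.1 hχ) (mem_Irr.1 hψ), norm_mul, norm_pow, norm_inv, Complex.norm_natCast]
  rw [inv_pow]
  ring

end Q30.AM
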