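import Pool.Agent.Q30.AM.Up2
import Pool.Agent.Q30.AM.Card

/-!
# The two bounds
-/

set_option autoImplicit false

namespace Q30.AM

theorem N_congr {G : Type} [Group G] [Fintype G] {F F' : G → G → ℂ} (h : ∀ x y, F x y = F' x y) :
    N F = N F' := by
  have : F = F' := funext fun x => funext fun y => h x y
  rw [this]

theorem AMZA_N {G : Type} [Group G] [Fintype G] {F : G → G → ℂ}
    (h1 : ∀ x y, IsConj x⁻¹ y → F x y = 1) (h0 : ∀ x y, ¬ IsConj x⁻¹ y → F x y = 0) :
    AMZA G = N F := by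
  rw [AMZA_eq]
  refine N_congr fun x y => ?_
  by_cases h : IsConj x⁻¹ y
  · rw [if_pos h, h1 x y h]
  · rw [if_neg h, h0 x y h]

theorem AMZA_GG : AMZA GG ≤ 79 / 8 := by
  have h : AMZA GG = N FF := AMZA_N (fun x y h => if_pos h) (fun x y h => if_neg h)
  rw [h]
  exact N_FF

theorem AMZA_K [Fintype ↥(commutator GG)] : 6673 / 625 ≤ AMZA ↥(commutator GG) := by
  have h : AMZA ↥(commutator GG) = N FK :=
    AMZA_N (fun x y h => if_pos h) (fun x y h => if_neg h)
  rw [h]
  exact low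

end Q30.AM
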