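import Pool.Agent.Q30.AM.Grp

/-!
# The group of order 600 and its conjugacy relation
-/

set_option autoImplicit false

open scoped BigOperators

namespace Q30.AM

/-- the sharply 2-transitive group of degree 25 with point stabilizer `SL(2,3)` -/
@[ext] structure GG where
  v : V5
  h : HH

instance : DecidableEq GG := fun x y => decidable_of_iff (x.v = y.v ∧ x.h = y.h)
  ⟨fun h => GG.ext h.1 h.2, fun h => by rw [h]; exact ⟨rfl, rfl⟩⟩

def eqv : V5 × HH ≃ GG := ⟨fun p => ⟨p.1, p.2⟩, fun x => (x.v, x.h), fun _ => rfl, fun _ => rfl⟩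

instance : Fintype GG := Fintype.ofEquiv (V5 × HH) eqv

instance : Mul GG := ⟨fun x y => ⟨x.v + act x.h y.v, x.h * y.h⟩⟩
instance : One GG := ⟨⟨0, 1⟩⟩
instance : Inv GG := ⟨fun x => ⟨-(act x.h⁻¹ x.v), x.h⁻¹⟩⟩

theorem mul_v (x y : GG) : (x * y).v = x.v + act x.h y.v := rfl
theorem mul_h (x y : GG) : (x * y).h = x.h * y.h := rfl
theorem one_v : (1 : GG).v = 0 := rfl
theorem one_h : (1 : GG).h = 1 := rfl
theorem inv_v (x : GG) : (x⁻¹).v = -(act x.h⁻¹ x.v) := rfl
theorem inv_h (x : GG) : (x⁻¹).h = x.h⁻¹ := rfl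

theorem GG_assoc (x y z : GG) : x * y * z = x * (y * z) := by
  apply GG.ext
  · simp only [mul_v, mul_h, act_add, act_mul, add_assoc]
  · simp only [mul_h, mul_assoc]

theorem GG_one_mul (x : GG) : 1 * x = x := by
  apply GG.ext
  · simp only [mul_v, one_v, one_h, act_one, zero_add]
  · simp only [mul_h, one_h, one_mul]

theorem GG_inv_mul (x : GG) : x⁻¹ * x = 1 := by
  apply GG.ext
  · simp only [mul_v, inv_v, inv_h, one_v, neg_add_cancel]
  · simp only [mul_h, inv_h, one_h, inv_mul_cancel]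

instance : Group GG := Group.ofLeftAxioms GG_assoc GG_one_mul GG_inv_mul

theorem act_inj {g : HH} {v : V5} (h : act g v = 0) : v = 0 := by
  have := act_mul g⁻¹ g v
  rw [inv_mul_cancel, act_one, h, act_zero] at this
  exact this

theorem conj_v {g x : GG} (hx : x.h = 1) : (g * x * g⁻¹).v = act g.h x.v := by
  simp only [mul_v, mul_h, inv_v, hx, mul_one, act_neg]
  rw [← act_mul, mul_inv_cancel, act_one]
  abel

theorem conj_h (g x : GG) : (g * x * g⁻¹).h = g.h * x.h * g.h⁻¹ := rfl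

theorem conj_zero (x : GG) (hx : x.h ≠ 1) : IsConj x ⟨0, x.h⟩ := by
  rw [isConj_comm, isConj_iff]
  obtain ⟨w, hw⟩ := fixfree x.h hx x.v
  refine ⟨⟨w, 1⟩, GG.ext ?_ ?_⟩
  · simp only [mul_v, mul_h, inv_v, inv_one, act_one, act_zero, add_zero, one_mul, act_neg]
    rw [← hw]
    abel
  · change 1 * x.h * 1⁻¹ = x.h
    rw [inv_one, one_mul, mul_one]

theorem conj_iff (x y : GG) : IsConj x y ↔ c x.h = c y.h ∧ qa x.h = qa y.h ∧
    (x.h = 1 → (x.v = 0 ↔ y.v = 0)) := by
  constructor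
  · intro h
    obtain ⟨g, rfl⟩ := isConj_iff.1 h
    have h1 := conjH' g.h x.h
    refine ⟨h1.1.symm, h1.2.symm, fun hx => ?_⟩
    rw [conj_v hx]
    exact ⟨fun h => by rw [h, act_zero], act_inj⟩
  · rintro ⟨h1, h2, h3⟩
    by_cases hx : x.h = 1
    · have hy : y.h = 1 := by
        rw [← qa_two, ← h2, qa_two]
        exact hx
      by_cases hv : x.v = 0
      · have hv' := (h3 hx).1 hv
        have : x = y := GG.ext (by rw [hv, hv']) (by rw [hx, hy])
        rw [this]
      · have hv' : y.v ≠ 0 := fun h => hv ((h3 hx).2 h)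
        obtain ⟨g, hg⟩ := transV _ _ hv hv'
        rw [isConj_iff]
        refine ⟨⟨0, g⟩, GG.ext ?_ ?_⟩
        · rw [conj_v hx]
          exact hg
        · rw [conj_h, hx, hy, mul_one, mul_inv_cancel]
    · have hy : y.h ≠ 1 := by
        intro h
        apply hx
        rw [← qa_two, h2, qa_two]
        exact h
      obtain ⟨k, hk⟩ := conjH _ _ h1 h2
      have e1 := conj_zero x hx
      have e2 := conj_zero y hy
      have e3 : IsConj (⟨0, x.h⟩ : GG) ⟨0, y.h⟩ := by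
        rw [isConj_iff]
        refine ⟨⟨0, k⟩, GG.ext ?_ ?_⟩
        · simp only [mul_v, mul_h, inv_v, act_zero, add_zero, neg_zero]
        · rw [conj_h]
          exact hk
      exact e1.trans (e3.trans e2.symm)

theorem conj_inv_iff (x y : GG) : IsConj x⁻¹ y ↔ c x.h + c y.h = 0 ∧ qa x.h = qa y.h ∧
    (x.h = 1 → (x.v = 0 ↔ y.v = 0)) := by
  rw [conj_iff, inv_h, inv_v, c_inv, qa_inv]
  have e1 : -c x.h = c y.h ↔ c x.h + c y.h = 0 := by
    rw [neg_eq_iff_add_eq_zero]
  rw [e1]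
  have e2 : x.h⁻¹ = 1 ↔ x.h = 1 := inv_eq_one
  have e3 : -(act x.h⁻¹ x.v) = 0 ↔ x.v = 0 := by
    rw [neg_eq_zero]
    exact ⟨act_inj, fun h => by rw [h, act_zero]⟩
  rw [e2, e3]

end Q30.AM
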