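import Pool.Agent.Q30.AM.Def

/-!
# The group `SL(2,3)` as the group of Hurwitz units (doubled coordinates) and its action on the
plane over the field with five elements
-/

set_option autoImplicit false

namespace Q30.AM

/-- the group of order 24, `SL(2,3)` -/
def HH : Type := Fin 24

instance : DecidableEq HH := inferInstanceAs (DecidableEq (Fin 24))
instance : Fintype HH := inferInstanceAs (Fintype (Fin 24))

def mulN (i j : ℕ) : ℕ := 676387771165079549523107003208847070661934458876139998315933749178418647658762412572086420548106634086348795497684604431469919976613995195509991504952867221682125950862998741504417291734371519179784782989923758095699929448143191506420606193254894248990609267788417172202062023815334426119028535365228244089117334589857902715023567837808700187038514403206484727473408662741545818460816543643900234295052282735244318039350938598743398677020683079038050575288126792783739873365327721324408719147936424411401828235980816611841492193096459958690337180852432998302696015697726190654973015007603829670469231949153950970654479377730770435836839718672772977982646980518284231414085011108304604824921322047434522290736756376886148678675754075125383263188485091428418215526058059801331222056855395793397400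 / 24 ^ (24 * i + j) % 24

def invN (i : ℕ) : ℕ := 930337432236854333456744667923160 / 24 ^ i % 24

instance : Mul HH := ⟨fun i j => (⟨mulN (Fin.val i) (Fin.val j), Nat.mod_lt _ (by norm_num)⟩ : Fin 24)⟩
instance : One HH := ⟨(0 : Fin 24)⟩
instance : Inv HH := ⟨fun i => (⟨invN (Fin.val i), Nat.mod_lt _ (by norm_num)⟩ : Fin 24)⟩

theorem HH_assoc : ∀ a b c : HH, a * b * c = a * (b * c) := by decide +kernel
theorem HH_one_mul : ∀ a : HH, 1 * a = a := by decide +kernel
theorem HH_inv_mul : ∀ a : HH, a⁻¹ * a = 1 := by decide +kernel

instance : Group HH := Group.ofLeftAxioms HH_assoc HH_one_mul HH_inv_mul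

/-- the homomorphism to the group of order three -/
def c (i : HH) : ZMod 3 := ((184276445040 / 3 ^ (Fin.val i) % 3 : ℕ) : ZMod 3)

/-- doubled coordinates of the quaternions -/
def qa (i : HH) : ℤ := ((14901237487695304 / 5 ^ (Fin.val i) % 5 : ℕ) : ℤ) - 2
def qb (i : HH) : ℤ := ((14948768737695112 / 5 ^ (Fin.val i) % 5 : ℕ) : ℤ) - 2
def qc (i : HH) : ℤ := ((16047404362690312 / 5 ^ (Fin.val i) % 5 : ℕ) : ℤ) - 2
def qd (i : HH) : ℤ := ((19868214925070312 / 5 ^ (Fin.val i) % 5 : ℕ) : ℤ) - 2

theorem c_mul : ∀ g h : HH, c (g * h) = c g + c h := by decide +kernel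
theorem qa_mul : ∀ g h : HH, 2 * qa (g * h) = qa g * qa h - qb g * qb h - qc g * qc h - qd g * qd h := by
  decide +kernel
theorem qb_mul : ∀ g h : HH, 2 * qb (g * h) = qa g * qb h + qb g * qa h + qc g * qd h - qd g * qc h := by
  decide +kernel
theorem qc_mul : ∀ g h : HH, 2 * qc (g * h) = qa g * qc h - qb g * qd h + qc g * qa h + qd g * qb h := by
  decide +kernel
theorem qd_mul : ∀ g h : HH, 2 * qd (g * h) = qa g * qd h + qb g * qc h - qc g * qb h + qd g * qa h := by
  decide +kernel

/-- the plane over the field with five elements -/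
abbrev V5 : Type := ZMod 5 × ZMod 5

/-- the action -/
def act (g : HH) (v : V5) : V5 :=
  ((3 * (qa g + 2 * qb g) : ℤ) * v.1 + (3 * (qc g + 2 * qd g) : ℤ) * v.2,
    (3 * (-qc g + 2 * qd g) : ℤ) * v.1 + (3 * (qa g - 2 * qb g) : ℤ) * v.2)

theorem act_add (g : HH) (v w : V5) : act g (v + w) = act g v + act g w := by
  ext <;> simp [act] <;> ring

theorem act_zero (g : HH) : act g 0 = 0 := by
  ext <;> simp [act]

theorem act_neg (g : HH) (v : V5) : act g (-v) = -act g v := by
  ext <;> simp [act] <;> ring

theorem act_mul : ∀ (g h : HH) (v : V5), act (g * h) v = act g (act h v) := by decide +kernel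
theorem act_one : ∀ v : V5, act 1 v = v := by decide +kernel

/-- the invariant symplectic form -/
def det (v w : V5) : ZMod 5 := v.1 * w.2 - v.2 * w.1

theorem det_act : ∀ (g : HH) (v w : V5), det (act g v) (act g w) = det v w := by decide +kernel

theorem conjH : ∀ h k : HH, c h = c k → qa h = qa k → ∃ g, g * h * g⁻¹ = k := by decide +kernel
theorem conjH' : ∀ g h : HH, c (g * h * g⁻¹) = c h ∧ qa (g * h * g⁻¹) = qa h := by decide +kernel
theorem transV : ∀ v w : V5, v ≠ 0 → w ≠ 0 → ∃ g, act g v = w := by decide +kernel
theorem fixfree : ∀ h : HH, h ≠ 1 → ∀ v : V5, ∃ w : V5, w - act h w = v := by decide +kernel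
theorem types : ∀ h : HH, (c h = 0 ∧ (qa h = 2 ∨ qa h = -2 ∨ qa h = 0)) ∨
    (c h ≠ 0 ∧ (qa h = 1 ∨ qa h = -1)) := by decide +kernel
theorem qa_two : ∀ h : HH, qa h = 2 ↔ h = 1 := by decide +kernel
theorem qa_inv : ∀ h : HH, qa h⁻¹ = qa h := by decide +kernel
theorem c_inv : ∀ h : HH, c h⁻¹ = -c h := by decide +kernel

end Q30.AM
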