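import Pool.Agent.Q30.AM.Up
import Pool.Agent.Q30.AM.Eq

/-!
# The lower bound for the derived subgroup, a group of order 200
-/

set_option autoImplicit false

open scoped BigOperators
open Pool.Agent.Helper884.IC

noncomputable section

namespace Q30.AM

/-- orbits of the quaternion group on the plane -/
def J (v w : V5) : Prop := ∃ h : HH, c h = 0 ∧ act h v = w

instance (v w : V5) : Decidable (J v w) := by unfold J; infer_instance

theorem J_neg : ∀ v w : V5, J (-v) w ↔ J v w := by decide +kernel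
theorem J_opp : ∀ v : V5, J v (-v) := by decide +kernel
theorem J_count : ∀ v : V5, (Finset.univ.filter fun w => J v w).card = if v = 0 then 1 else 8 := by
  decide +kernel
theorem J_zero : J 0 0 := by decide +kernel

theorem comm_ex : ∀ h : HH, c h = 0 → ∃ a b : HH, a * b * a⁻¹ * b⁻¹ = h := by decide +kernel
theorem z_ex : ∃ h : HH, h ≠ 1 := by decide +kernel

/-- the homomorphism to the group of order three -/
def cHom : GG →* Multiplicative (ZMod 3) where
  toFun x := Multiplicative.ofAdd (c x.h)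
  map_one' := by
    change Multiplicative.ofAdd (c 1) = 1
    rw [c_one]
    rfl
  map_mul' x y := by
    rw [mul_h, c_mul]
    rfl

theorem mem_K_c {x : GG} (h : x ∈ commutator GG) : c x.h = 0 := by
  have h1 := Abelianization.commutator_subset_ker cHom h
  rw [MonoidHom.mem_ker] at h1
  exact Multiplicative.ofAdd.injective h1

theorem comm_mem (a b : GG) : a * b * a⁻¹ * b⁻¹ ∈ commutator GG :=
  Subgroup.commutator_mem_commutator (Subgroup.mem_top a) (Subgroup.mem_top b)

theorem rot_mem {h : HH} (hc : c h = 0) : (⟨0, h⟩ : GG) ∈ commutator GG := by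
  obtain ⟨a, b, hab⟩ := comm_ex h hc
  have e : (⟨0, h⟩ : GG) = ⟨0, a⟩ * ⟨0, b⟩ * (⟨0, a⟩)⁻¹ * (⟨0, b⟩)⁻¹ := by
    apply GG.ext
    · simp only [mul_v, mul_h, inv_v, inv_h, act_zero, add_zero, neg_zero]
    · exact hab.symm
  rw [e]
  exact comm_mem _ _

theorem trans_mem (v : V5) : (⟨v, 1⟩ : GG) ∈ commutator GG := by
  obtain ⟨h, hh⟩ := z_ex
  obtain ⟨w, hw⟩ := fixfree h hh v
  have e : (⟨v, 1⟩ : GG) = ⟨w, 1⟩ * ⟨0, h⟩ * (⟨w, 1⟩)⁻¹ * (⟨0, h⟩)⁻¹ := by
    apply GG.ext
    · simp only [mul_v, mul_h, inv_v, inv_h, act_zero, add_zero, neg_zero, inv_one, act_one, one_mul,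
        act_neg, mul_one]
      rw [← hw]
      abel
    · change 1 = 1 * h * 1⁻¹ * h⁻¹
      rw [inv_one, one_mul, mul_one, mul_inv_cancel]
  rw [e]
  exact comm_mem _ _

/-- the inclusion of the translations -/
def iot : Multiplicative V5 →* ↥(commutator GG) where
  toFun v := ⟨⟨Multiplicative.toAdd v, 1⟩, trans_mem _⟩
  map_one' := rfl
  map_mul' v w := by
    apply Subtype.ext
    apply GG.ext
    · change Multiplicative.toAdd v + Multiplicative.toAdd w = _
      change _ = Multiplicative.toAdd v + act 1 (Multiplicative.toAdd w)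
      rw [act_one]
    · change 1 = 1 * 1
      rw [mul_one]

theorem iot_conj (v w : Multiplicative V5) :
    IsConj (iot v)⁻¹ (iot w) ↔ J (Multiplicative.toAdd v) (Multiplicative.toAdd w) := by
  rw [← map_inv, isConj_iff, ← J_neg]
  constructor
  · rintro ⟨k, hk⟩
    refine ⟨(k : GG).h, mem_K_c k.2, ?_⟩
    have h1 := congrArg Subtype.val hk
    have h2 := congrArg GG.v h1
    have h3 := conj_v (g := (k : GG)) (x := ⟨-(Multiplicative.toAdd v), 1⟩) rfl
    rw [← h3]
    exact h2
  · rintro ⟨h, hc, hh⟩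
    refine ⟨⟨⟨0, h⟩, rot_mem hc⟩, ?_⟩
    apply Subtype.ext
    apply GG.ext
    · have h3 := conj_v (g := ⟨0, h⟩) (x := ⟨-(Multiplicative.toAdd v), 1⟩) rfl
      exact h3.trans hh
    · change h * 1 * h⁻¹ = 1
      rw [mul_one, mul_inv_cancel]

/-- the characters of the plane -/
def lam (u : V5) (v : Multiplicative V5) : ℂ := ZMod.stdAddChar (det u (Multiplicative.toAdd v))

theorem det_add (u v w : V5) : det u (v + w) = det u v + det u w := by
  simp only [det, Prod.fst_add, Prod.snd_add]; ring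

theorem det_add' (u v w : V5) : det (u + v) w = det u w + det v w := by
  simp only [det, Prod.fst_add, Prod.snd_add]; ring

theorem det_neg (u v : V5) : det u (-v) = -det u v := by
  simp only [det, Prod.fst_neg, Prod.snd_neg]; ring

theorem det_zero (u : V5) : det u 0 = 0 := by simp [det]

def lamHom (u : V5) : Multiplicative V5 →* ℂ where
  toFun := lam u
  map_one' := by
    change ZMod.stdAddChar (det u 0) = 1
    rw [det_zero, AddChar.map_zero_eq_one]
  map_mul' v w := by
    change ZMod.stdAddChar (det u (Multiplicative.toAdd v + Multiplicative.toAdd w)) = _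
    rw [det_add, AddChar.map_add_eq_mul]
    rfl

theorem std5 (x : ZMod 5) : ∑ j : ZMod 5, (ZMod.stdAddChar (j * x) : ℂ) = if x = 0 then 5 else 0 := by
  have := AddChar.sum_mulShift (R := ZMod 5) (R' := ℂ) x (ZMod.isPrimitive_stdAddChar 5)
  rw [this]
  simp [ZMod.card]

/-- sum over the first variable -/
theorem sum_fst (v : V5) : ∑ u : V5, (ZMod.stdAddChar (det u v) : ℂ) = if v = 0 then 25 else 0 := by
  have h : ∀ u : V5, (ZMod.stdAddChar (det u v) : ℂ) =
      ZMod.stdAddChar (u.1 * v.2) * ZMod.stdAddChar (u.2 * (-v.1)) := by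
    intro u
    rw [← AddChar.map_add_eq_mul]
    congr 1
    simp only [det]
    ring
  rw [Finset.sum_congr rfl fun u _ => h u, Fintype.sum_prod_type]
  simp only [← Finset.mul_sum, ← Finset.sum_mul, std5]
  obtain ⟨a, b⟩ := v
  by_cases ha : a = 0 <;> by_cases hb : b = 0 <;> (simp [ha, hb, Prod.ext_iff]; try norm_num)

/-- sum over the second variable -/
theorem sum_snd (u : V5) : ∑ v : V5, (ZMod.stdAddChar (det u (-v)) : ℂ) = if u = 0 then 25 else 0 := by
  rw [← sum_fst u]
  refine Finset.sum_congr rfl fun v _ => ?_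
  congr 1
  simp only [det, Prod.fst_neg, Prod.snd_neg]
  ring

/-- indicator of the orbit relation -/
def Jc (v w : V5) : ℂ := if J v w then 1 else 0

theorem J_act {g : HH} (hg : c g = 0) (a b : V5) : J a (act g b) ↔ J a b := by
  have hinv : c g⁻¹ = 0 := by rw [c_inv, hg, neg_zero]
  constructor
  · rintro ⟨h, hc, hh⟩
    refine ⟨g⁻¹ * h, by rw [c_mul, hinv, hc, add_zero], ?_⟩
    rw [act_mul, hh, ← act_mul, inv_mul_cancel, act_one]
  · rintro ⟨h, hc, hh⟩
    exact ⟨g * h, by rw [c_mul, hg, hc, add_zero], by rw [act_mul, hh]⟩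

/-- the permutation of the plane -/
def actE (g : HH) : V5 ≃ V5 where
  toFun := act g
  invFun := act g⁻¹
  left_inv v := by rw [← act_mul, inv_mul_cancel, act_one]
  right_inv v := by rw [← act_mul, mul_inv_cancel, act_one]

/-- the double sum over the orbit relation -/
def TT (v w : V5) : ℂ := ∑ a : V5, ∑ b : V5, Jc a b *
  ((ZMod.stdAddChar (det a (-v)) : ℂ) * (ZMod.stdAddChar (det b (-w)) : ℂ))

theorem TT_inv {g : HH} (hg : c g = 0) (v : V5) : TT v (act g v) = TT v v := by
  unfold TT
  refine Finset.sum_congr rfl fun a _ => ?_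
  rw [← Equiv.sum_comp (actE g)]
  refine Finset.sum_congr rfl fun b _ => ?_
  change Jc a (act g b) * ((ZMod.stdAddChar (det a (-v)) : ℂ) *
    (ZMod.stdAddChar (det (act g b) (-(act g v))) : ℂ)) = _
  have e1 : Jc a (act g b) = Jc a b := by
    unfold Jc
    congr 1
    exact propext (J_act hg a b)
  rw [e1, det_neg (act g b), det_act, ← det_neg b]

theorem Jc_sum (v : V5) : ∑ w : V5, Jc v w = if v = 0 then 1 else 8 := by
  unfold Jc
  rw [Finset.sum_boole, J_count]
  split <;> norm_num

theorem sum_J (v : V5) : ∑ w : V5, Jc v w * TT v w = (if v = 0 then 1 else 8) * TT v v := by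
  rw [← Jc_sum, Finset.sum_mul]
  refine Finset.sum_congr rfl fun w _ => ?_
  by_cases h : J v w
  · obtain ⟨g, hg, rfl⟩ := h
    rw [TT_inv hg]
  · unfold Jc
    rw [if_neg h, zero_mul, zero_mul]

theorem orb_sum (f : V5 → ℂ) : ∑ v : V5, (if v = 0 then 1 else 8) * f v = 8 * ∑ v : V5, f v - 7 * f 0 := by
  have h : ∀ v : V5, (if v = 0 then (1 : ℂ) else 8) * f v = 8 * f v - if v = 0 then 7 * f 0 else 0 := by
    intro v
    by_cases hv : v = 0
    · subst hv
      rw [if_pos rfl, if_pos rfl]
      ring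
    · rw [if_neg hv, if_neg hv, sub_zero]
  rw [Finset.sum_congr rfl fun v _ => h v, Finset.sum_sub_distrib, ← Finset.mul_sum,
    Finset.sum_ite_eq' Finset.univ (0 : V5), if_pos (Finset.mem_univ _)]

theorem TT_zero : TT 0 0 = 193 := by
  unfold TT
  have h0 : ∀ a : V5, (ZMod.stdAddChar (det a (-0)) : ℂ) = 1 := by
    intro a
    rw [neg_zero, det_zero, AddChar.map_zero_eq_one]
  simp only [h0, mul_one, Jc_sum]
  have h1 := orb_sum fun _ => 1
  simp only [mul_one, Finset.sum_const, Finset.card_univ, nsmul_eq_mul] at h1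
  rw [h1]
  have h2 : Fintype.card V5 = 25 := by decide +kernel
  rw [h2]
  norm_num

theorem TT_sum : ∑ v : V5, TT v v = 625 := by
  unfold TT
  rw [Finset.sum_comm]
  have h1 : ∀ a : V5, ∑ v : V5, ∑ b : V5, Jc a b *
      ((ZMod.stdAddChar (det a (-v)) : ℂ) * (ZMod.stdAddChar (det b (-v)) : ℂ)) = 25 := by
    intro a
    rw [Finset.sum_comm]
    have h2 : ∀ b : V5, ∑ v : V5, Jc a b *
        ((ZMod.stdAddChar (det a (-v)) : ℂ) * (ZMod.stdAddChar (det b (-v)) : ℂ)) =
        if b = -a then 25 else 0 := by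
      intro b
      rw [← Finset.mul_sum]
      have h3 : ∀ v : V5, (ZMod.stdAddChar (det a (-v)) : ℂ) * (ZMod.stdAddChar (det b (-v)) : ℂ) =
          ZMod.stdAddChar (det (a + b) (-v)) := by
        intro v
        rw [← AddChar.map_add_eq_mul, det_add']
      rw [Finset.sum_congr rfl fun v _ => h3 v, sum_snd]
      by_cases hb : b = -a
      · subst hb
        rw [if_pos rfl, if_pos (add_neg_cancel a), Jc, if_pos (J_opp a), one_mul]
      · rw [if_neg hb, if_neg, mul_zero]
        intro h
        exact hb (neg_eq_of_add_eq_zero_right h).symm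
    rw [Finset.sum_congr rfl fun b _ => h2 b, Finset.sum_ite_eq' Finset.univ (-a),
      if_pos (Finset.mem_univ _)]
  rw [Finset.sum_congr rfl fun a _ => h1 a, Finset.sum_const, Finset.card_univ]
  have h2 : Fintype.card V5 = 25 := by decide +kernel
  rw [h2]
  norm_num

theorem total : ∑ v : V5, ∑ w : V5, Jc v w * ∑ a : V5, ∑ b : V5, (2 * Jc a b - 1) *
    ((ZMod.stdAddChar (det a (-v)) : ℂ) * (ZMod.stdAddChar (det b (-w)) : ℂ)) = 6673 := by
  have h1 : ∀ v w : V5, ∑ a : V5, ∑ b : V5, (2 * Jc a b - 1) *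
      ((ZMod.stdAddChar (det a (-v)) : ℂ) * (ZMod.stdAddChar (det b (-w)) : ℂ)) =
      2 * TT v w - if v = 0 then (if w = 0 then 625 else 0) else 0 := by
    intro v w
    have e1 : (∑ a : V5, (ZMod.stdAddChar (det a (-v)) : ℂ)) *
        (∑ b : V5, (ZMod.stdAddChar (det b (-w)) : ℂ)) =
        if v = 0 then (if w = 0 then 625 else 0) else 0 := by
      rw [sum_fst, sum_fst]
      by_cases hv : v = 0
      · by_cases hw : w = 0
        · simp [hv, hw]; norm_num
        · simp [hv, hw]
      · simp [hv]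
    rw [← e1, Finset.sum_mul_sum]
    unfold TT
    rw [Finset.mul_sum, ← Finset.sum_sub_distrib]
    refine Finset.sum_congr rfl fun a _ => ?_
    rw [Finset.mul_sum, ← Finset.sum_sub_distrib]
    refine Finset.sum_congr rfl fun b _ => ?_
    ring
  have h2 : ∀ v : V5, ∑ w : V5, Jc v w * ∑ a : V5, ∑ b : V5, (2 * Jc a b - 1) *
      ((ZMod.stdAddChar (det a (-v)) : ℂ) * (ZMod.stdAddChar (det b (-w)) : ℂ)) =
      2 * ((if v = 0 then 1 else 8) * TT v v) - if v = 0 then 625 else 0 := by
    intro v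
    rw [← sum_J, Finset.mul_sum]
    have e2 : (if v = 0 then (625 : ℂ) else 0) =
        ∑ w : V5, Jc v w * (if v = 0 then (if w = 0 then 625 else 0) else 0) := by
      by_cases hv : v = 0
      · subst hv
        simp only [if_true, mul_ite, mul_zero]
        rw [Finset.sum_ite_eq' Finset.univ (0 : V5), if_pos (Finset.mem_univ _), Jc,
          if_pos J_zero, one_mul]
      · simp [hv]
    rw [e2, ← Finset.sum_sub_distrib]
    refine Finset.sum_congr rfl fun w _ => ?_
    rw [h1]
    ring
  rw [Finset.sum_congr rfl fun v _ => h2 v, Finset.sum_sub_distrib, ← Finset.mul_sum, orb_sum,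
    TT_sum, TT_zero, Finset.sum_ite_eq' Finset.univ (0 : V5), if_pos (Finset.mem_univ _)]
  norm_num

open Classical in
/-- the relation in the derived subgroup -/
def FK (x y : ↥(commutator GG)) : ℂ := if IsConj x⁻¹ y then 1 else 0

theorem FK_iot (v w : Multiplicative V5) :
    FK (iot v) (iot w) = Jc (Multiplicative.toAdd v) (Multiplicative.toAdd w) := by
  unfold FK Jc
  by_cases h : J (Multiplicative.toAdd v) (Multiplicative.toAdd w)
  · rw [if_pos h, if_pos ((iot_conj v w).2 h)]
  · rw [if_neg h, if_neg fun h' => h ((iot_conj v w).1 h')]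

theorem FK_class1 (y : ↥(commutator GG)) : IsClass fun x => FK x y := by
  intro x g
  have h : IsConj x⁻¹ (g * x * g⁻¹)⁻¹ := isConj_iff.2 ⟨g, by group⟩
  change FK (g * x * g⁻¹) y = FK x y
  unfold FK
  by_cases h' : IsConj x⁻¹ y
  · rw [if_pos h', if_pos (h.symm.trans h')]
  · rw [if_neg h', if_neg fun h'' => h' (h.trans h'')]

theorem FK_class2 (x : ↥(commutator GG)) : IsClass (FK x) := by
  intro y g
  have h : IsConj y (g * y * g⁻¹) := isConj_iff.2 ⟨g, rfl⟩
  unfold FK
  by_cases h' : IsConj x⁻¹ y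
  · rw [if_pos h', if_pos (h'.trans h)]
  · rw [if_neg h', if_neg fun h'' => h' (h''.trans h.symm)]

theorem lam_sum (v : Multiplicative V5) :
    ∑ u : V5, lam u v = if v = 1 then (Nat.card (Multiplicative V5) : ℂ) else 0 := by
  have h2 : Nat.card (Multiplicative V5) = 25 := by
    rw [Nat.card_eq_fintype_card]
    decide +kernel
  rw [h2]
  unfold lam
  rw [sum_fst]
  by_cases h : v = 1
  · subst h
    rw [if_pos rfl, if_pos (by rfl)]
    norm_num
  · rw [if_neg h, if_neg]
    intro h'
    exact h h'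

theorem low [Fintype ↥(commutator GG)] : (6673 / 625 : ℝ) ≤ N FK := by
  have h := lower (G := ↥(commutator GG)) iot lam (fun u => hom_rep (lamHom u))
    (fun v => by rw [lam_sum]; congr 1)
    (fun a b => 2 * Jc a b - 1) (by
      intro a b
      by_cases h : J a b
      · simp only [Jc, if_pos h]
        norm_num
      · simp only [Jc, if_neg h]
        norm_num) FK_class1 FK_class2
  have h2 : Nat.card (Multiplicative V5) = 25 := by
    rw [Nat.card_eq_fintype_card]
    decide +kernel
  have e : (∑ v : Multiplicative V5, ∑ w : Multiplicative V5, FK (iot v) (iot w) *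
      ∑ a : V5, ∑ b : V5, (2 * Jc a b - 1) * (lam a v⁻¹ * lam b w⁻¹)) = 6673 := by
    simp only [FK_iot]
    exact total
  rw [e, h2] at h
  refine le_trans (le_of_eq ?_) h
  have : ((25 : ℕ) : ℂ)⁻¹ ^ 2 * 6673 = ((6673 / 625 : ℝ) : ℂ) := by
    push_cast
    norm_num
  rw [this, Complex.norm_real, Real.norm_of_nonneg (by norm_num)]

end Q30.AM
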