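import Mathlib

/-!
# Nonamenable groups split into two sets of density zero

For a group `G`, `is12 A` is the infimum over all finitely supported probability measures `μ` on `G`
of the supremum of the masses `μ (A y)`, `y ∈ G`. We show that every nonamenable group has a subset
`A` such that both `A` and its complement have `is12` equal to zero.

The proof takes a minimal nonempty closed convex invariant set `Q` of finitely additive probability
measures. In a nonamenable group it has two points, which differ on a set `B`. Every orbit in `Q`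
comes arbitrarily close to the maximum and to the minimum over `Q` of the value at `B`; by a minimax
argument there are finitely supported probability measures which do this simultaneously for all
points of `Q`. The set of all `g` such that the value of `g q` at `B` is above the middle has the
required property.
-/

namespace Q30.AM

universe u

variable {G : Type u} [Group G]

/-- finitely supported probability measures on `G` -/
structure FinProb (G : Type u) where
  /-- the weights -/
  w : G →₀ ℝ
  nonneg : ∀ x, 0 ≤ w x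
  sum_one : (w.sum fun _ c => c) = 1

open Classical in
/-- the mass of a set -/
noncomputable def FinProb.mass (μ : FinProb G) (S : Set G) : ℝ :=
  μ.w.sum fun x c => if x ∈ S then c else 0

/-- the density `is12` -/
noncomputable def is12 (A : Set G) : ℝ :=
  ⨅ μ : FinProb G, ⨆ y : G, μ.mass ((fun a => a * y) '' A)

/-- finitely additive probability measures on all subsets of `G` -/
def Means (G : Type u) : Set (Set G → ℝ) :=
  {m | (∀ A, 0 ≤ m A) ∧ m Set.univ = 1 ∧ ∀ A B, Disjoint A B → m (A ∪ B) = m A + m B}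

/-- left translation of a set function -/
def act (g : G) (m : Set G → ℝ) : Set G → ℝ := fun A => m ((fun x => g * x) ⁻¹' A)

lemma act_mul (g h : G) (m : Set G → ℝ) : act (g * h) m = act g (act h m) := by
  funext A
  unfold act
  congr 1
  ext x
  simp [mul_assoc]

lemma act_one (m : Set G → ℝ) : act (1 : G) m = m := by
  funext A
  unfold act
  congr 1
  ext x
  simp

lemma continuous_act (g : G) : Continuous (act g : (Set G → ℝ) → (Set G → ℝ)) :=
  continuous_pi fun A => continuous_apply _

lemma act_mem_means (g : G) {m : Set G → ℝ} (hm : m ∈ Means G) : act g m ∈ Means G := by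
  refine ⟨fun A => hm.1 _, ?_, fun A B hAB => ?_⟩
  · show m ((fun x => g * x) ⁻¹' Set.univ) = 1
    rw [Set.preimage_univ]; exact hm.2.1
  · show m ((fun x => g * x) ⁻¹' (A ∪ B)) = _
    rw [Set.preimage_union]
    exact hm.2.2 _ _ (hAB.preimage _)

lemma means_le_one {m : Set G → ℝ} (hm : m ∈ Means G) (A : Set G) : m A ≤ 1 := by
  have h := hm.2.2 A Aᶜ disjoint_compl_right
  rw [Set.union_compl_self, hm.2.1] at h
  have := hm.1 Aᶜ
  linarith

lemma means_compl {m : Set G → ℝ} (hm : m ∈ Means G) (A : Set G) : m Aᶜ = 1 - m A := by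
  have h := hm.2.2 A Aᶜ disjoint_compl_right
  rw [Set.union_compl_self, hm.2.1] at h
  linarith

lemma isClosed_means : IsClosed (Means G) := by
  have : Means G = (⋂ A : Set G, {m : Set G → ℝ | 0 ≤ m A}) ∩
      ({m : Set G → ℝ | m Set.univ = 1} ∩
        ⋂ A : Set G, ⋂ B : Set G, ⋂ _ : Disjoint A B, {m : Set G → ℝ | m (A ∪ B) = m A + m B}) := by
    ext m
    simp [Means]
  rw [this]
  refine IsClosed.inter (isClosed_iInter fun A => ?_) (IsClosed.inter ?_ ?_)
  · exact isClosed_le continuous_const (continuous_apply A)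
  · exact isClosed_eq (continuous_apply _) continuous_const
  · refine isClosed_iInter fun A => isClosed_iInter fun B => isClosed_iInter fun _ => ?_
    exact isClosed_eq (continuous_apply _)
      ((continuous_apply (A : Set G)).add (continuous_apply (B : Set G)) :
        Continuous fun m : Set G → ℝ => m A + m B)

lemma isCompact_means : IsCompact (Means G) := by
  refine IsCompact.of_isClosed_subset (isCompact_univ_pi (s := fun _ : Set G => Set.Icc (0:ℝ) 1)
    fun _ => isCompact_Icc) isClosed_means ?_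
  intro m hm A _
  exact ⟨hm.1 A, means_le_one hm A⟩

lemma convex_means : Convex ℝ (Means G) := by
  intro m hm m' hm' a b ha hb hab
  refine ⟨fun A => ?_, ?_, fun A B hAB => ?_⟩
  · have h1 := hm.1 A
    have h2 := hm'.1 A
    simp only [Pi.add_apply, Pi.smul_apply, smul_eq_mul]
    positivity
  · simp only [Pi.add_apply, Pi.smul_apply, smul_eq_mul, hm.2.1, hm'.2.1]
    linarith
  · simp only [Pi.add_apply, Pi.smul_apply, smul_eq_mul, hm.2.2 A B hAB, hm'.2.2 A B hAB]
    ring

lemma means_nonempty : (Means G).Nonempty := by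
  classical
  refine ⟨fun A => if (1 : G) ∈ A then 1 else 0, fun A => ?_, ?_, fun A B hAB => ?_⟩
  · positivity
  · simp
  · by_cases h1 : (1 : G) ∈ A
    · have h2 : (1 : G) ∉ B := fun h => Set.disjoint_left.1 hAB h1 h
      simp [h1, h2]
    · simp [h1]

/-- affine flows inside the space of means -/
structure IsFlow (Q : Set (Set G → ℝ)) : Prop where
  sub : Q ⊆ Means G
  closed : IsClosed Q
  convex : Convex ℝ Q
  inv : ∀ g, ∀ m ∈ Q, act g m ∈ Q
  nonempty : Q.Nonempty

lemma isFlow_means : IsFlow (Means G) :=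
  ⟨subset_rfl, isClosed_means, convex_means, fun g _ hm => act_mem_means g hm, means_nonempty⟩

lemma exists_minimal_flow : ∃ Q : Set (Set G → ℝ), Minimal (· ∈ {Q | IsFlow Q}) Q := by
  have H : ∀ c ⊆ {Q : Set (Set G → ℝ) | IsFlow Q}, IsChain (· ⊆ ·) c → c.Nonempty →
      ∃ lb ∈ {Q : Set (Set G → ℝ) | IsFlow Q}, ∀ s ∈ c, lb ⊆ s := by
    intro c hc hchain hne
    obtain ⟨s0, hs0⟩ := hne
    refine ⟨⋂₀ c, ?_, fun s hs => Set.sInter_subset_of_mem hs⟩
    refine ⟨(Set.sInter_subset_of_mem hs0).trans (hc hs0).sub,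
      isClosed_sInter fun s hs => (hc hs).closed,
      convex_sInter fun s hs => (hc hs).convex, fun g m hm s hs => (hc hs).inv g m (hm s hs), ?_⟩
    haveI : Nonempty c := ⟨⟨s0, hs0⟩⟩
    rw [Set.sInter_eq_iInter]
    refine IsCompact.nonempty_iInter_of_directed_nonempty_isCompact_isClosed
      (fun s : c => (s.1 : Set (Set G → ℝ))) ?_ (fun s => (hc s.2).nonempty)
      (fun s => isCompact_means.of_isClosed_subset (hc s.2).closed (hc s.2).sub)
      (fun s => (hc s.2).closed)
    intro s t
    rcases hchain.total s.2 t.2 with h | h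
    · exact ⟨s, subset_rfl, h⟩
    · exact ⟨t, h, subset_rfl⟩
  obtain ⟨m, -, hm⟩ := zorn_superset_nonempty {Q : Set (Set G → ℝ) | IsFlow Q} H (Means G)
    isFlow_means
  exact ⟨m, hm⟩

/-- in a minimal flow every orbit comes close to the maximum -/
lemma orbit_close {Q : Set (Set G → ℝ)} (hQ : Minimal (· ∈ {Q | IsFlow Q}) Q) (B : Set G) {β : ℝ}
    {p : Set G → ℝ} (hp : p ∈ Q) (hβ : p B = β) {s : ℝ} (hs : s < β) {q : Set G → ℝ} (hq : q ∈ Q) :
    ∃ g : G, s < act g q B := by
  by_contra hcon
  push Not at hcon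
  have hfl : IsFlow Q := hQ.prop
  let Q' : Set (Set G → ℝ) := Q ∩ ⋂ g : G, {m | act g m B ≤ s}
  have hQ' : IsFlow Q' := by
    refine ⟨Set.inter_subset_left.trans hfl.sub, hfl.closed.inter (isClosed_iInter fun g => ?_),
      hfl.convex.inter (convex_iInter fun g => ?_), ?_, ⟨q, hq, ?_⟩⟩
    · exact isClosed_le ((continuous_apply B).comp (continuous_act g)) continuous_const
    · intro m hm m' hm' a b ha hb hab
      have h1 : a * act g m B ≤ a * s := mul_le_mul_of_nonneg_left hm ha
      have h2 : b * act g m' B ≤ b * s := mul_le_mul_of_nonneg_left hm' hb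
      have h3 : a * s + b * s = s := by rw [← add_mul, hab, one_mul]
      show a * act g m B + b * act g m' B ≤ s
      linarith
    · rintro g m ⟨hm1, hm2⟩
      refine ⟨hfl.inv g m hm1, ?_⟩
      rw [Set.mem_iInter] at hm2 ⊢
      intro h
      have := hm2 (h * g)
      simpa [act_mul] using this
    · rw [Set.mem_iInter]; exact hcon
  have hsub : Q ⊆ Q' := hQ.2 hQ' Set.inter_subset_left
  have h1 := (hsub hp).2
  rw [Set.mem_iInter] at h1
  have h2 : act 1 p B ≤ s := h1 1
  rw [act_one] at h2
  linarith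

/-- the minimax step -/
lemma minimax {Q : Set (Set G → ℝ)} (hfl : IsFlow Q) (B : Set G) (s : ℝ)
    (h : ∀ q ∈ Q, ∃ g : G, s < act g q B) :
    ∃ ν : FinProb G, ∀ q ∈ Q, s ≤ ν.w.sum fun g c => c * act g q B := by
  classical
  have hQc : IsCompact Q := isCompact_means.of_isClosed_subset hfl.closed hfl.sub
  have hcov : Q ⊆ ⋃ g : G, {m | s < act g m B} := fun q hq => by
    obtain ⟨g, hg⟩ := h q hq
    exact Set.mem_iUnion.2 ⟨g, hg⟩
  obtain ⟨t, ht⟩ := hQc.elim_finite_subcover (fun g : G => {m : Set G → ℝ | s < act g m B})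
    (fun g => isOpen_lt continuous_const ((continuous_apply B).comp (continuous_act g))) hcov
  -- the image of `Q` in a finite dimensional space
  let Φ : (Set G → ℝ) → (t → ℝ) := fun m i => act (i : G) m B
  have hΦc : Continuous Φ :=
    continuous_pi fun i => (continuous_apply B).comp (continuous_act (i : G))
  have hC : IsCompact (Φ '' Q) := hQc.image hΦc
  have hCconv : Convex ℝ (Φ '' Q) := by
    rintro _ ⟨m, hm, rfl⟩ _ ⟨m', hm', rfl⟩ a b ha hb hab
    refine ⟨a • m + b • m', hfl.convex hm hm' ha hb hab, ?_⟩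
    funext i
    simp [Φ, act]
  let D : Set (t → ℝ) := {x | ∀ i, x i ≤ s}
  have hDc : IsClosed D := by
    have : D = ⋂ i : t, {x : t → ℝ | x i ≤ s} := by ext x; simp [D]
    rw [this]
    exact isClosed_iInter fun i => isClosed_le (continuous_apply i) continuous_const
  have hDconv : Convex ℝ D := by
    intro x hx y hy a b ha hb hab i
    have h1 : a * x i ≤ a * s := mul_le_mul_of_nonneg_left (hx i) ha
    have h2 : b * y i ≤ b * s := mul_le_mul_of_nonneg_left (hy i) hb
    have h3 : a * s + b * s = s := by rw [← add_mul, hab, one_mul]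
    show a * x i + b * y i ≤ s
    linarith
  have hdisj : Disjoint (Φ '' Q) D := by
    rw [Set.disjoint_left]
    rintro _ ⟨m, hm, rfl⟩ hx
    obtain ⟨g, hg⟩ := Set.mem_iUnion.1 (ht hm)
    obtain ⟨hgt, hg'⟩ := Set.mem_iUnion.1 hg
    have := hx ⟨g, hgt⟩
    exact absurd hg' (not_lt.2 this)
  obtain ⟨f, u, v, hu, huv, hv⟩ :=
    geometric_hahn_banach_compact_closed hCconv hC hDconv hDc hdisj
  -- the weights
  let e : t → (t → ℝ) := fun i => Pi.single i 1
  have hf : ∀ x : t → ℝ, f x = ∑ i, x i * f (e i) := by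
    intro x
    have hx : x = ∑ i, x i • e i := by
      funext j
      simp [e, Finset.sum_apply, Pi.single_apply]
    conv_lhs => rw [hx]
    simp [map_sum]
  let cst : t → ℝ := fun _ => s
  have hneg : ∀ i, f (e i) ≤ 0 := by
    intro i
    by_contra hpos
    push Not at hpos
    obtain ⟨N, hN⟩ := exists_nat_gt ((f cst - v) / f (e i))
    have hmem : cst - (N : ℝ) • e i ∈ D := by
      intro j
      simp only [cst, e, Pi.sub_apply, Pi.smul_apply, smul_eq_mul, Pi.single_apply]
      split_ifs
      · have : (0:ℝ) ≤ N := Nat.cast_nonneg N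
        linarith
      · simp
    have h1 := hv _ hmem
    rw [map_sub, map_smul, smul_eq_mul] at h1
    rw [div_lt_iff₀ hpos] at hN
    linarith
  let W : ℝ := ∑ i, -f (e i)
  have hWpos : 0 < W := by
    have hW0 : 0 ≤ W := Finset.sum_nonneg fun i _ => by have := hneg i; linarith
    rcases hW0.lt_or_eq with h0 | h0
    · exact h0
    exfalso
    have hz : ∀ i, f (e i) = 0 := by
      intro i
      have := (Finset.sum_eq_zero_iff_of_nonneg (s := Finset.univ)
        (f := fun i => -f (e i)) (fun i _ => by have := hneg i; linarith)).1 h0.symm i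
        (Finset.mem_univ i)
      linarith
    have hzero : ∀ x, f x = 0 := fun x => by rw [hf]; simp [hz]
    obtain ⟨q, hq⟩ := hfl.nonempty
    have h1 := hu _ ⟨q, hq, rfl⟩
    have h2 := hv cst (fun i => le_rfl)
    rw [hzero] at h1 h2
    linarith
  let wf : G → ℝ := fun g => if hg : g ∈ t then (-f (e ⟨g, hg⟩)) / W else 0
  have hwf0 : ∀ g, 0 ≤ wf g := by
    intro g
    simp only [wf]
    split_ifs with hg
    · have := hneg ⟨g, hg⟩
      apply div_nonneg _ hWpos.le
      linarith
    · exact le_rfl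
  let w : G →₀ ℝ := Finsupp.onFinset t wf (by
    intro g hg
    by_contra hgt
    exact hg (by simp [wf, hgt]))
  have hsum : ∀ F : G → ℝ, (w.sum fun g c => c * F g) = (∑ i : t, (-f (e i)) * F i) / W := by
    intro F
    rw [Finsupp.onFinset_sum _ (fun g => by simp), ← Finset.sum_coe_sort t, Finset.sum_div]
    refine Finset.sum_congr rfl fun i _ => ?_
    simp only [wf, i.2, dif_pos]
    ring
  refine ⟨⟨w, fun x => hwf0 x, ?_⟩, fun q hq => ?_⟩
  · have := hsum fun _ => 1
    simp only [mul_one] at this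
    rw [this]
    exact div_self hWpos.ne'
  · show s ≤ w.sum fun g c => c * act g q B
    rw [hsum, le_div_iff₀ hWpos]
    have h1 := hu _ ⟨q, hq, rfl⟩
    have h2 := hv cst (fun i => le_rfl)
    rw [hf] at h1 h2
    have h3 : (∑ i : t, (-f (e i)) * act (i : G) q B) = -∑ i, Φ q i * f (e i) := by
      rw [← Finset.sum_neg_distrib]
      exact Finset.sum_congr rfl fun i _ => by simp only [Φ]; ring
    have h4 : s * W = -∑ i, cst i * f (e i) := by
      simp only [W, Finset.mul_sum, ← Finset.sum_neg_distrib, cst]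
      exact Finset.sum_congr rfl fun i _ => by ring
    rw [h3, h4]
    linarith

open Classical in
/-- a bound for the mass of a set through a linear inequality -/
lemma mass_le (ν : FinProb G) (F : G → ℝ) (β s θ : ℝ) (hF : ∀ g, F g ≤ β)
    (hs : s ≤ ν.w.sum fun g c => c * F g) (hθ : θ < β) (S : Set G) (hS : ∀ g ∈ S, F g ≤ θ) :
    ν.mass S ≤ (β - s) / (β - θ) := by
  rw [le_div_iff₀ (by linarith)]
  have h1 : (ν.w.sum fun g c => c * F g) ≤ β - ν.mass S * (β - θ) := by
    have h2 : β - ν.mass S * (β - θ) =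
        ν.w.sum fun g c => c * (β - if g ∈ S then β - θ else 0) := by
      have h3 : β = ν.w.sum fun _ c => c * β := by
        rw [← Finsupp.sum_mul, ν.sum_one, one_mul]
      conv_lhs => rw [h3]
      unfold FinProb.mass
      rw [Finsupp.sum_mul, ← Finsupp.sum_sub]
      refine Finsupp.sum_congr fun g _ => ?_
      conv_lhs => rw [← h3]
      split_ifs <;> ring
    rw [h2]
    refine Finset.sum_le_sum fun g _ => mul_le_mul_of_nonneg_left ?_ (ν.nonneg g)
    split_ifs with hg
    · have := hS g hg
      linarith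
    · have := hF g
      linarith
  linarith

lemma mass_nonneg (ν : FinProb G) (S : Set G) : 0 ≤ ν.mass S := by
  classical
  refine Finset.sum_nonneg fun x _ => ?_
  dsimp only
  split_ifs
  · exact ν.nonneg x
  · exact le_rfl

lemma mass_le_one (ν : FinProb G) (S : Set G) : ν.mass S ≤ 1 := by
  classical
  rw [← ν.sum_one]
  refine Finset.sum_le_sum fun x _ => ?_
  dsimp only
  split_ifs
  · exact le_rfl
  · exact ν.nonneg x

lemma is12_nonneg (A : Set G) : 0 ≤ is12 A :=
  Real.iInf_nonneg fun μ => Real.iSup_nonneg fun _ => mass_nonneg μ _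

lemma is12_le (A : Set G) (μ : FinProb G) (c : ℝ)
    (h : ∀ y : G, μ.mass ((fun a => a * y) '' A) ≤ c) : is12 A ≤ c := by
  refine (ciInf_le ⟨0, ?_⟩ μ).trans (ciSup_le h)
  rintro _ ⟨ν, rfl⟩
  exact Real.iSup_nonneg fun _ => mass_nonneg ν _

lemma le_is12 (A : Set G) (c : ℝ)
    (h : ∀ μ : FinProb G, ∀ s : ℝ, (∀ y : G, μ.mass ((fun a => a * y) '' A) ≤ s) → c ≤ s) :
    c ≤ is12 A := by
  classical
  have : Nonempty (FinProb G) := ⟨⟨Finsupp.single 1 1, fun x => by
    rw [Finsupp.single_apply]; split_ifs <;> norm_num, by simp⟩⟩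
  refine le_ciInf fun μ => h μ _ fun y => ?_
  refine le_ciSup (f := fun y : G => μ.mass ((fun a => a * y) '' A)) ⟨1, ?_⟩ y
  rintro _ ⟨z, rfl⟩
  exact mass_le_one μ _

/-- one half of the bipartition -/
lemma is12_level {Q : Set (Set G → ℝ)} (hQ : Minimal (· ∈ {Q | IsFlow Q}) Q) (B : Set G)
    {β θ : ℝ} {p : Set G → ℝ} (hp : p ∈ Q) (hβ : p B = β) (hmax : ∀ q ∈ Q, q B ≤ β) (hθ : θ < β)
    {q : Set G → ℝ} (hq : q ∈ Q) (S : Set G) (hS : ∀ g ∈ S, act g q B ≤ θ) : is12 S = 0 := by
  refine le_antisymm ?_ (is12_nonneg S)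
  refine le_of_forall_pos_le_add fun ε hε => ?_
  rw [zero_add]
  have hd : 0 < β - θ := by linarith
  have hpos : 0 < ε * (β - θ) := mul_pos hε hd
  obtain ⟨ν, hν⟩ := minimax hQ.prop B (β - ε * (β - θ))
    fun q hq => orbit_close hQ B hp hβ (by linarith) hq
  refine is12_le S ν ε fun y => ?_
  have hqy : act y⁻¹ q ∈ Q := hQ.prop.inv _ _ hq
  have h1 := mass_le ν (fun g => act g (act y⁻¹ q) B) β (β - ε * (β - θ)) θ
    (fun g => hmax _ (hQ.prop.inv _ _ hqy)) (hν _ hqy) hθ ((fun a => a * y) '' S) (by
      rintro _ ⟨a, ha, rfl⟩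
      show act (a * y) (act y⁻¹ q) B ≤ θ
      rw [← act_mul]
      simpa using hS a ha)
  refine h1.trans (le_of_eq ?_)
  rw [sub_sub_cancel]
  field_simp

/-- **Theorem.** A nonamenable group splits into two sets of density zero. -/
theorem exists_null_bipartition
    (hG : ¬ ∃ m ∈ Means G, ∀ (g : G) (A : Set G), m ((fun x => g * x) '' A) = m A) :
    ∃ A : Set G, A.Nonempty ∧ Aᶜ.Nonempty ∧ is12 A = 0 ∧ is12 Aᶜ = 0 := by
  obtain ⟨Q, hQ⟩ := exists_minimal_flow (G := G)
  have hfl : IsFlow Q := hQ.prop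
  have hQc : IsCompact Q := isCompact_means.of_isClosed_subset hfl.closed hfl.sub
  -- two points of `Q`
  have h2 : ∃ q ∈ Q, ∃ q' ∈ Q, ∃ B : Set G, q B < q' B := by
    by_contra hcon
    push Not at hcon
    obtain ⟨q, hq⟩ := hfl.nonempty
    refine hG ⟨q, hfl.sub hq, fun g A => ?_⟩
    have h1 := hcon q hq (act g q) (hfl.inv g q hq) ((fun x => g * x) '' A)
    have h3 := hcon (act g q) (hfl.inv g q hq) q hq ((fun x => g * x) '' A)
    have h4 : act g q ((fun x => g * x) '' A) = q A := by
      unfold act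
      congr 1
      exact Set.preimage_image_eq A (mul_right_injective g)
    rw [h4] at h1 h3
    linarith
  obtain ⟨q0, hq0, q1, hq1, B, hB⟩ := h2
  obtain ⟨p, hp, hpmax⟩ := hQc.exists_isMaxOn hfl.nonempty
    ((continuous_apply B : Continuous fun m : Set G → ℝ => m B)).continuousOn
  obtain ⟨r, hr, hrmin⟩ := hQc.exists_isMinOn hfl.nonempty
    ((continuous_apply B : Continuous fun m : Set G → ℝ => m B)).continuousOn
  have hmax : ∀ q ∈ Q, q B ≤ p B := fun q hq => hpmax hq
  have hmin : ∀ q ∈ Q, r B ≤ q B := fun q hq => hrmin hq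
  have hlt : r B < p B := lt_of_le_of_lt (hmin _ hq0) (lt_of_lt_of_le hB (hmax _ hq1))
  let θ : ℝ := (p B + r B) / 2
  have hcompl : ∀ g, act g q0 Bᶜ = 1 - act g q0 B := fun g =>
    means_compl (hfl.sub (hfl.inv g _ hq0)) B
  have hA1 : is12 {g : G | act g q0 B ≤ θ} = 0 :=
    is12_level hQ B hp rfl hmax (by simp only [θ]; linarith) hq0 _ fun g hg => hg
  have hA2 : is12 {g : G | act g q0 B ≤ θ}ᶜ = 0 := by
    refine is12_level hQ Bᶜ (β := 1 - r B) (θ := 1 - θ) hr (means_compl (hfl.sub hr) B)
      (fun q hq => ?_) (by simp only [θ]; linarith) hq0 _ fun g hg => ?_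
    · rw [means_compl (hfl.sub hq) B]
      have := hmin q hq
      linarith
    · rw [hcompl]
      have : θ < act g q0 B := not_le.1 hg
      linarith
  refine ⟨{g : G | act g q0 B ≤ θ}, ?_, ?_, hA1, hA2⟩
  · obtain ⟨g, hg⟩ := orbit_close hQ Bᶜ (β := 1 - r B) (s := 1 - θ) hr
      (means_compl (hfl.sub hr) B) (by simp only [θ]; linarith) hq0
    refine ⟨g, ?_⟩
    rw [hcompl] at hg
    show act g q0 B ≤ θ
    linarith
  · obtain ⟨g, hg⟩ := orbit_close hQ B (β := p B) (s := θ) hp rfl
      (by simp only [θ]; linarith) hq0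
    exact ⟨g, not_le.2 hg⟩

/-- a finitely additive integral inequality -/
lemma sum_le_aux {m : Set G → ℝ} (hm : m ∈ Means G) (t : Finset G) (α : G → ℝ) (S : G → Set G) :
    ∀ (s : ℝ) (Z : Set G), (∀ z ∈ Z, (∑ i ∈ t, (S i).indicator (fun _ => α i) z) ≤ s) →
      (∑ i ∈ t, α i * m (S i ∩ Z)) ≤ s * m Z := by
  classical
  have hempty : m ∅ = 0 := by
    have h := hm.2.2 ∅ ∅ (Set.disjoint_empty _)
    rw [Set.union_empty] at h
    linarith
  induction t using Finset.induction_on with
  | empty =>
    intro s Z h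
    rcases Z.eq_empty_or_nonempty with rfl | ⟨z, hz⟩
    · simp [hempty]
    · have h1 := h z hz
      simp only [Finset.sum_empty] at h1 ⊢
      exact mul_nonneg h1 (hm.1 Z)
  | insert i t hi ih =>
    intro s Z h
    have hsplit : ∀ Y : Set G, m Y = m (Y ∩ S i) + m (Y ∩ (S i)ᶜ) := by
      intro Y
      rw [← hm.2.2 _ _ (Set.disjoint_left.2 fun x hx hx' => hx'.2 hx.2),
        Set.inter_union_compl]
    have h1 := ih (s - α i) (Z ∩ S i) fun z hz => by
      have := h z hz.1
      rw [Finset.sum_insert hi, Set.indicator_of_mem hz.2] at this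
      linarith
    have h2 := ih s (Z ∩ (S i)ᶜ) fun z hz => by
      have := h z hz.1
      rw [Finset.sum_insert hi, Set.indicator_of_notMem hz.2] at this
      linarith
    have h3 : (∑ j ∈ t, α j * m (S j ∩ Z)) =
        (∑ j ∈ t, α j * m (S j ∩ (Z ∩ S i))) + ∑ j ∈ t, α j * m (S j ∩ (Z ∩ (S i)ᶜ)) := by
      rw [← Finset.sum_add_distrib]
      refine Finset.sum_congr rfl fun j _ => ?_
      rw [← mul_add, hsplit (S j ∩ Z), Set.inter_assoc, Set.inter_assoc]
    rw [Finset.sum_insert hi, h3, hsplit Z, Set.inter_comm (S i) Z]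
    nlinarith

/-- an invariant measure is at most `is12` -/
lemma mean_le_is12 {m : Set G → ℝ} (hm : m ∈ Means G)
    (hinv : ∀ (g : G) (A : Set G), m ((fun x => g * x) '' A) = m A) (A : Set G) :
    m A ≤ is12 A := by
  classical
  refine le_is12 A _ fun μ s hs => ?_
  have key := sum_le_aux hm μ.w.support (fun g => μ.w g) (fun g => (fun x => g * x) ⁻¹' A) s
    Set.univ (fun z _ => by
      refine le_trans (le_of_eq ?_) (hs z⁻¹)
      unfold FinProb.mass Finsupp.sum
      refine Finset.sum_congr rfl fun g _ => ?_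
      have hiff : (z ∈ (fun x => g * x) ⁻¹' A) ↔ g ∈ (fun a => a * z⁻¹) '' A := by
        constructor
        · intro h
          exact ⟨g * z, h, by simp⟩
        · rintro ⟨a, ha, rfl⟩
          show a * z⁻¹ * z ∈ A
          simpa using ha
      by_cases hz : z ∈ (fun x => g * x) ⁻¹' A
      · rw [Set.indicator_of_mem hz]
        exact (if_pos (hiff.1 hz)).symm
      · rw [Set.indicator_of_notMem hz]
        exact (if_neg fun h => hz (hiff.2 h)).symm)
  have h1 : ∀ g : G, m ((fun x => g * x) ⁻¹' A ∩ Set.univ) = m A := by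
    intro g
    rw [Set.inter_univ]
    have := hinv g ((fun x => g * x) ⁻¹' A)
    rw [Set.image_preimage_eq A (mul_left_surjective g)] at this
    exact this.symm
  simp only [h1, hm.2.1, mul_one] at key
  have h2 : (∑ g ∈ μ.w.support, μ.w g * m A) = m A := by
    rw [← Finset.sum_mul]
    have : (∑ g ∈ μ.w.support, μ.w g) = 1 := μ.sum_one
    rw [this, one_mul]
  linarith

end Q30.AM
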