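import Pool.Agent.Q30.AM.GG

/-!
# The upper bound
-/

set_option autoImplicit false

open scoped BigOperators
open Pool.Agent.Helper884.IC

noncomputable section

namespace Q30.AM

section
variable {G : Type} [Group G] [Fintype G]

omit [Fintype G] in
theorem mat_rep {n : ℕ} (f : G →* Matrix (Fin n) (Fin n) ℂ) :
    ∃ (W : Type) (_ : AddCommGroup W) (_ : Module ℂ W) (_ : FiniteDimensional ℂ W)
      (rho : Representation ℂ G W), (fun g => (f g).trace) = rho.character := by
  let rho : Representation ℂ G (Fin n → ℂ) :=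
    ((Matrix.toLinAlgEquiv' : Matrix (Fin n) (Fin n) ℂ ≃ₐ[ℂ] _).toAlgHom.toRingHom.toMonoidHom).comp f
  refine ⟨Fin n → ℂ, inferInstance, inferInstance, inferInstance, rho, ?_⟩
  funext g
  change _ = LinearMap.trace ℂ _ (Matrix.toLin' (f g))
  rw [Matrix.trace_toLin'_eq]

theorem pos_mat {n : ℕ} (f : G →* Matrix (Fin n) (Fin n) ℂ) : Pos fun g => (f g).trace := by
  obtain ⟨W, _, _, _, rho, h⟩ := mat_rep f
  rw [h]
  exact pos_rep rho

omit [Fintype G] in
theorem hom_rep (f : G →* ℂ) :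
    ∃ (W : Type) (_ : AddCommGroup W) (_ : Module ℂ W) (_ : FiniteDimensional ℂ W)
      (rho : Representation ℂ G W), (fun g => f g) = rho.character := by
  obtain ⟨W, i1, i2, i3, rho, h⟩ := mat_rep
    (((Matrix.scalar (Fin 1) : ℂ →+* Matrix (Fin 1) (Fin 1) ℂ).toMonoidHom).comp f)
  refine ⟨W, i1, i2, i3, rho, ?_⟩
  rw [← h]
  funext g
  change f g = (Matrix.scalar (Fin 1) (f g)).trace
  simp [Matrix.trace]

theorem pos_add {α β : G → ℂ} (hα : Pos α) (hβ : Pos β) : Pos (α + β) := by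
  refine ⟨fun g y => ?_, fun χ hχ => ?_⟩
  · simp only [Pi.add_apply, hα.1 g y, hβ.1 g y]
  · obtain ⟨s, hs, hs'⟩ := hα.2 χ hχ
    obtain ⟨t, ht, ht'⟩ := hβ.2 χ hχ
    exact ⟨s + t, add_nonneg hs ht, by rw [B_add_left, hs', ht']; push_cast; rfl⟩

theorem pos_smul {α : G → ℂ} (hα : Pos α) {r : ℝ} (hr : 0 ≤ r) : Pos ((r : ℂ) • α) := by
  refine ⟨fun g y => ?_, fun χ hχ => ?_⟩
  · simp only [Pi.smul_apply, hα.1 g y]
  · obtain ⟨s, hs, hs'⟩ := hα.2 χ hχ
    exact ⟨r * s, mul_nonneg hr hs, by rw [B_smul_left, hs']; push_cast; rfl⟩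

theorem N_sum_le {ι : Type} (s : Finset ι) (F : ι → G → G → ℂ) :
    N (∑ i ∈ s, F i) ≤ ∑ i ∈ s, N (F i) := by
  classical
  induction s using Finset.induction_on with
  | empty =>
    simp only [Finset.sum_empty]
    have : (0 : G → G → ℂ) = (0 : ℂ) • 0 := by simp
    rw [this, N_smul]
    simp
  | insert a s ha ih =>
    rw [Finset.sum_insert ha, Finset.sum_insert ha]
    exact (N_add _ _).trans (add_le_add le_rfl ih)

end

/-- the 2-dimensional representation -/
def rho2 : HH →* Matrix (Fin 2) (Fin 2) ℂ where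
  toFun g := !![((qa g : ℂ) + qb g * Complex.I) / 2, ((qc g : ℂ) + qd g * Complex.I) / 2;
    (-(qc g : ℂ) + qd g * Complex.I) / 2, ((qa g : ℂ) - qb g * Complex.I) / 2]
  map_one' := by
    have h1 : qa 1 = 2 := by decide +kernel
    have h2 : qb 1 = 0 := by decide +kernel
    have h3 : qc 1 = 0 := by decide +kernel
    have h4 : qd 1 = 0 := by decide +kernel
    ext i j
    fin_cases i <;> fin_cases j <;> simp [h1, h2, h3, h4]
  map_mul' g h := by
    have ha : (2 : ℂ) * qa (g * h) = qa g * qa h - qb g * qb h - qc g * qc h - qd g * qd h := by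
      exact_mod_cast qa_mul g h
    have hb : (2 : ℂ) * qb (g * h) = qa g * qb h + qb g * qa h + qc g * qd h - qd g * qc h := by
      exact_mod_cast qb_mul g h
    have hc : (2 : ℂ) * qc (g * h) = qa g * qc h - qb g * qd h + qc g * qa h + qd g * qb h := by
      exact_mod_cast qc_mul g h
    have hd : (2 : ℂ) * qd (g * h) = qa g * qd h + qb g * qc h - qc g * qb h + qd g * qa h := by
      exact_mod_cast qd_mul g h
    have hI : Complex.I ^ 2 = -1 := Complex.I_sq
    ext i j
    fin_cases i <;> fin_cases j <;> simp [Matrix.mul_apply, Fin.sum_univ_two]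
    · linear_combination (1 / 4 : ℂ) * ha + (Complex.I / 4) * hb -
        ((qb g : ℂ) * qb h + qd g * qd h) / 4 * hI
    · linear_combination (1 / 4 : ℂ) * hc + (Complex.I / 4) * hd -
        ((qb g : ℂ) * qd h - qd g * qb h) / 4 * hI
    · linear_combination -(1 / 4 : ℂ) * hc + (Complex.I / 4) * hd +
        (-(qd g : ℂ) * qb h + qb g * qd h) / 4 * hI
    · linear_combination (1 / 4 : ℂ) * ha - (Complex.I / 4) * hb -
        ((qd g : ℂ) * qd h + qb g * qb h) / 4 * hI

/-- the rotation matrices -/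
def rot (g : HH) : Matrix (Fin 3) (Fin 3) ℤ :=
  !![(qa g ^ 2 + qb g ^ 2 - qc g ^ 2 - qd g ^ 2) / 4, 2 * (qb g * qc g - qa g * qd g) / 4,
      2 * (qb g * qd g + qa g * qc g) / 4;
    2 * (qb g * qc g + qa g * qd g) / 4, (qa g ^ 2 - qb g ^ 2 + qc g ^ 2 - qd g ^ 2) / 4,
      2 * (qc g * qd g - qa g * qb g) / 4;
    2 * (qb g * qd g - qa g * qc g) / 4, 2 * (qc g * qd g + qa g * qb g) / 4,
      (qa g ^ 2 - qb g ^ 2 - qc g ^ 2 + qd g ^ 2) / 4]

theorem rot_one : rot 1 = 1 := by decide +kernel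
theorem rot_mul : ∀ g h : HH, rot (g * h) = rot g * rot h := by decide +kernel
theorem rot_trace : ∀ g : HH, (rot g).trace =
    4 * (if qa g = 2 ∨ qa g = -2 then 1 else 0) - (if c g = 0 then 1 else 0) := by decide +kernel

def rho3 : HH →* Matrix (Fin 3) (Fin 3) ℂ where
  toFun g := (rot g).map (Int.castRingHom ℂ)
  map_one' := by rw [rot_one, Matrix.map_one _ (map_zero _) (map_one _)]
  map_mul' g h := by rw [rot_mul, Matrix.map_mul]

/-- the projection -/
def prj : GG →* HH where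
  toFun x := x.h
  map_one' := rfl
  map_mul' _ _ := rfl

/-- linear characters -/
def om (j : ZMod 3) (x : GG) : ℂ := ZMod.stdAddChar (j * c x.h)

def omHom (j : ZMod 3) : GG →* ℂ where
  toFun := om j
  map_one' := by
    have : c (1 : GG).h = 0 := by decide +kernel
    rw [om, this, mul_zero, AddChar.map_zero_eq_one]
  map_mul' x y := by
    rw [om, om, om, mul_h, c_mul, mul_add, AddChar.map_add_eq_mul]

def aa (x : GG) : ℂ := qa x.h

theorem trace_rho2 (g : HH) : (rho2 g).trace = qa g := by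
  rw [Matrix.trace_fin_two]
  change ((qa g : ℂ) + qb g * Complex.I) / 2 + ((qa g : ℂ) - qb g * Complex.I) / 2 = _
  ring

theorem pos_om (j : ZMod 3) : Pos (om j) := by
  have h := pos_mat (((Matrix.scalar (Fin 1) : ℂ →+* Matrix (Fin 1) (Fin 1) ℂ).toMonoidHom).comp
    (omHom j))
  have e : (fun g => ((((Matrix.scalar (Fin 1) : ℂ →+* Matrix (Fin 1) (Fin 1) ℂ).toMonoidHom).comp
    (omHom j)) g).trace) = om j := by
    funext g
    change (Matrix.scalar (Fin 1) (om j g)).trace = _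
    simp [Matrix.trace]
  rw [e] at h
  exact h

theorem pos_aom (j : ZMod 3) : Pos fun x => aa x * om j x := by
  let f : GG →* Matrix (Fin 2) (Fin 2) ℂ :=
    { toFun := fun x => om j x • rho2 x.h
      map_one' := by
        have h1 : om j 1 = 1 := (omHom j).map_one
        have h2 : rho2 (1 : GG).h = 1 := rho2.map_one
        rw [h1, h2, one_smul]
      map_mul' := fun x y => by
        have h1 : om j (x * y) = om j x * om j y := (omHom j).map_mul x y
        rw [h1, mul_h, map_mul, Matrix.smul_mul, Matrix.mul_smul, smul_smul] }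
  have h := pos_mat f
  have e : (fun g => (f g).trace) = fun x => aa x * om j x := by
    funext g
    change (om j g • rho2 g.h).trace = _
    rw [Matrix.trace_smul, trace_rho2, smul_eq_mul, mul_comm]
    rfl
  rw [e] at h
  exact h

def RR (x : GG) : ℂ := if c x.h = 0 then 1 else 0
def PP (x : GG) : ℂ := if qa x.h = 2 ∨ qa x.h = -2 then 1 else 0
def XX (x : GG) : ℂ := 4 * PP x - RR x
def WW (x : GG) : ℂ := if x.h = 1 then 1 else 0
def DD (x : GG) : ℂ := if x = 1 then 1 else 0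

theorem sum_std (t : ZMod 3) : ∑ j : ZMod 3, (ZMod.stdAddChar (j * t) : ℂ) =
    if t = 0 then 3 else 0 := by
  have h := AddChar.sum_mulShift t (ZMod.isPrimitive_stdAddChar 3)
  rw [h]
  split_ifs <;> simp

theorem RR_eq : RR = ((1 / 3 : ℝ) : ℂ) • ∑ j : ZMod 3, om j := by
  funext x
  rw [Pi.smul_apply, Finset.sum_apply]
  simp only [om]
  rw [sum_std]
  unfold RR
  split_ifs <;> simp

theorem pos_sum3 {α : ZMod 3 → GG → ℂ} (h : ∀ j, Pos (α j)) : Pos (∑ j, α j) := by
  have e : (∑ j, α j) = α 0 + α 1 + α 2 := Fin.sum_univ_three α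
  rw [e]
  exact pos_add (pos_add (h 0) (h 1)) (h 2)

theorem pos_RR : Pos RR := by
  rw [RR_eq]
  exact pos_smul (pos_sum3 pos_om) (by norm_num)

theorem pos_aRR : Pos fun x => aa x * RR x := by
  have e : (fun x => aa x * RR x) = ((1 / 3 : ℝ) : ℂ) • ∑ j : ZMod 3, fun x => aa x * om j x := by
    funext x
    rw [RR_eq, Pi.smul_apply, Finset.sum_apply, Pi.smul_apply, Finset.sum_apply, smul_eq_mul,
      smul_eq_mul, ← Finset.mul_sum]
    ring
  rw [e]
  exact pos_smul (pos_sum3 pos_aom) (by norm_num)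

theorem pos_XX : Pos XX := by
  have h := pos_mat (rho3.comp prj)
  have e : (fun g => ((rho3.comp prj) g).trace) = XX := by
    funext g
    change ((rot g.h).map (Int.castRingHom ℂ)).trace = _
    have h1 : ((rot g.h).map (Int.castRingHom ℂ)).trace = Int.castRingHom ℂ (rot g.h).trace := by
      simp [Matrix.trace, Matrix.map_apply]
    rw [h1, rot_trace]
    unfold XX PP RR
    split_ifs <;> simp <;> norm_num
  rw [e] at h
  exact h

/-- the translations -/
def tr : Multiplicative V5 →* GG where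
  toFun v := ⟨v.toAdd, 1⟩
  map_one' := rfl
  map_mul' v w := by
    apply GG.ext
    · change (v * w).toAdd = v.toAdd + act 1 w.toAdd
      rw [act_one]
      rfl
    · change (1 : HH) = 1 * 1
      rw [one_mul]

theorem tr_inj : Function.Injective tr := by
  intro v w h
  exact congrArg GG.v h

theorem pos_DD : Pos DD := by
  refine ⟨fun g y => ?_, fun χ hχ => ?_⟩
  · exact if_congr conj_eq_one_iff rfl rfl
  · obtain ⟨n, hn⟩ := irr_one hχ
    refine ⟨(Nat.card GG : ℝ)⁻¹ * n, by positivity, ?_⟩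
    unfold B DD
    have : ∀ g : GG, (if g = 1 then (1 : ℂ) else 0) * χ g⁻¹ = if g = 1 then χ 1 else 0 := by
      intro g
      by_cases hg : g = 1
      · subst hg; simp
      · simp [hg]
    rw [Finset.sum_congr rfl fun g _ => this g, Finset.sum_ite_eq' Finset.univ (1 : GG)]
    simp only [Finset.mem_univ, if_true]
    rw [hn]
    push_cast
    rfl

theorem pos_WW : Pos WW := by
  refine ⟨fun g y => ?_, fun χ hχ => ?_⟩
  · exact if_congr (by rw [conj_h, conj_eq_one_iff]) rfl rfl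
  · obtain ⟨W, _, _, _, sigma, _, rfl⟩ := hχ
    obtain ⟨W', _, _, _, rho, hr⟩ := hom_rep (1 : Multiplicative V5 →* ℂ)
    obtain ⟨n, hn⟩ := rep_nonneg (MonoidHom.comp sigma tr) rho
    refine ⟨(Nat.card GG : ℝ)⁻¹ * ((Nat.card (Multiplicative V5) : ℝ) * n), by positivity, ?_⟩
    have h1 : B (Representation.character (MonoidHom.comp sigma tr))
        rho.character = (Nat.card (Multiplicative V5) : ℂ)⁻¹ *
          ∑ v : Multiplicative V5, sigma.character (tr v) := by
      unfold B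
      rw [← hr]
      congr 1
      refine Finset.sum_congr rfl fun v _ => ?_
      change sigma.character (tr v) * 1 = _
      rw [mul_one]
    have h2 : ∑ g : GG, WW g * sigma.character g⁻¹ =
        ∑ v : Multiplicative V5, sigma.character (tr v) := by
      have e1 : ∑ g : GG, WW g * sigma.character g⁻¹ =
          ∑ g : GG, WW g * sigma.character g := by
        refine Fintype.sum_equiv (Equiv.inv GG) _ _ fun g => ?_
        have : WW g⁻¹ = WW g := if_congr (by rw [inv_h, inv_eq_one]) rfl rfl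
        simp only [Equiv.inv_apply]
        rw [this]
      rw [e1]
      have e2 : ∑ g : GG, WW g * sigma.character g =
          ∑ g ∈ Finset.univ.image tr, sigma.character g := by
        rw [← Finset.sum_filter_add_sum_filter_not Finset.univ (fun g : GG => g.h = 1)]
        have e3 : ∑ g ∈ Finset.univ.filter (fun g : GG => ¬ g.h = 1),
            WW g * sigma.character g = 0 := by
          refine Finset.sum_eq_zero fun g hg => ?_
          rw [Finset.mem_filter] at hg
          unfold WW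
          rw [if_neg hg.2, zero_mul]
        rw [e3, add_zero]
        have e4 : Finset.univ.image tr = Finset.univ.filter (fun g : GG => g.h = 1) := by
          ext g
          rw [Finset.mem_image, Finset.mem_filter]
          constructor
          · rintro ⟨v, _, rfl⟩
            exact ⟨Finset.mem_univ _, rfl⟩
          · rintro ⟨_, h⟩
            exact ⟨Multiplicative.ofAdd g.v, Finset.mem_univ _, GG.ext rfl h.symm⟩
        rw [e4]
        refine Finset.sum_congr rfl fun g hg => ?_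
        rw [Finset.mem_filter] at hg
        unfold WW
        rw [if_pos hg.2, one_mul]
      rw [e2, Finset.sum_image fun a _ b _ h => tr_inj h]
    have h3 : (Nat.card (Multiplicative V5) : ℂ) ≠ 0 := cardG_ne
    unfold B
    rw [h2]
    rw [hn] at h1
    push_cast
    rw [h1]
    field_simp

open Classical in
def FF (x y : GG) : ℂ := if IsConj x⁻¹ y then 1 else 0

theorem om_sum (x y : GG) : ∑ j : ZMod 3, om j x * om j y =
    if c x.h + c y.h = 0 then 3 else 0 := by
  rw [← sum_std]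
  refine Finset.sum_congr rfl fun j _ => ?_
  rw [om, om, mul_add, AddChar.map_add_eq_mul]

theorem DD_eq (x : GG) (h : x.h = 1) : DD x = if x.v = 0 then 1 else 0 := by
  unfold DD
  congr 1
  rw [eq_iff_iff]
  exact ⟨fun h => by rw [h]; rfl, fun h' => GG.ext h' h⟩

theorem c_one : c 1 = 0 := by decide +kernel

theorem FF_eq (x y : GG) : FF x y = (1 / 6) * ∑ j : ZMod 3, om j x * om j y +
    (1 / 6) * (aa x * aa y * ∑ j : ZMod 3, om j x * om j y) + (3 / 32) * (RR x * RR y) -
    (5 / 32) * (XX x * RR y) - (5 / 32) * (RR x * XX y) + (3 / 32) * (XX x * XX y) -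
    (3 / 8) * ((aa x * RR x) * (aa y * RR y)) - WW x * DD y - DD x * WW y + 2 * (DD x * DD y) := by
  rw [om_sum]
  have hFF : FF x y = if (c x.h + c y.h = 0 ∧ qa x.h = qa y.h ∧
      (x.h = 1 → (x.v = 0 ↔ y.v = 0))) then 1 else 0 := by
    unfold FF
    congr 1
    rw [eq_iff_iff]
    exact conj_inv_iff x y
  rw [hFF]
  have hval : ∀ z : GG, (c z.h = 0 ∧ z.h = 1 ∧ qa z.h = 2 ∧ aa z = 2 ∧ RR z = 1 ∧ XX z = 3 ∧
      WW z = 1 ∧ DD z = if z.v = 0 then 1 else 0) ∨
      (c z.h = 0 ∧ z.h ≠ 1 ∧ qa z.h = -2 ∧ aa z = -2 ∧ RR z = 1 ∧ XX z = 3 ∧ WW z = 0 ∧ DD z = 0) ∨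
      (c z.h = 0 ∧ z.h ≠ 1 ∧ qa z.h = 0 ∧ aa z = 0 ∧ RR z = 1 ∧ XX z = -1 ∧ WW z = 0 ∧ DD z = 0) ∨
      (c z.h ≠ 0 ∧ z.h ≠ 1 ∧ qa z.h = 1 ∧ aa z = 1 ∧ RR z = 0 ∧ XX z = 0 ∧ WW z = 0 ∧ DD z = 0) ∨
      (c z.h ≠ 0 ∧ z.h ≠ 1 ∧ qa z.h = -1 ∧ aa z = -1 ∧ RR z = 0 ∧ XX z = 0 ∧ WW z = 0 ∧
        DD z = 0) := by
    intro z
    have hD : z.h ≠ 1 → DD z = 0 := fun h => if_neg fun h' => h (by rw [h']; rfl)
    have hW : z.h ≠ 1 → WW z = 0 := fun h => if_neg h
    rcases types z.h with ⟨hc, hq | hq | hq⟩ | ⟨hc, hq | hq⟩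
    · have h1 := (qa_two z.h).1 hq
      refine Or.inl ⟨hc, h1, hq, ?_, ?_, ?_, if_pos h1, DD_eq z h1⟩
      · simp [aa, hq]
      · simp [RR, hc]
      · simp [XX, PP, RR, hc, hq]; norm_num
    · have h1 : z.h ≠ 1 := fun h => by rw [(qa_two z.h).2 h] at hq; norm_num at hq
      refine Or.inr (Or.inl ⟨hc, h1, hq, ?_, ?_, ?_, hW h1, hD h1⟩)
      · simp [aa, hq]
      · simp [RR, hc]
      · simp [XX, PP, RR, hc, hq]; norm_num
    · have h1 : z.h ≠ 1 := fun h => by rw [(qa_two z.h).2 h] at hq; norm_num at hq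
      refine Or.inr (Or.inr (Or.inl ⟨hc, h1, hq, ?_, ?_, ?_, hW h1, hD h1⟩))
      · simp [aa, hq]
      · simp [RR, hc]
      · simp [XX, PP, RR, hc, hq]
    · have h1 : z.h ≠ 1 := fun h => by rw [(qa_two z.h).2 h] at hq; norm_num at hq
      refine Or.inr (Or.inr (Or.inr (Or.inl ⟨hc, h1, hq, ?_, ?_, ?_, hW h1, hD h1⟩)))
      · simp [aa, hq]
      · simp [RR, hc]
      · simp [XX, PP, RR, hc, hq]
    · have h1 : z.h ≠ 1 := fun h => by rw [(qa_two z.h).2 h] at hq; norm_num at hq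
      refine Or.inr (Or.inr (Or.inr (Or.inr ⟨hc, h1, hq, ?_, ?_, ?_, hW h1, hD h1⟩)))
      · simp [aa, hq]
      · simp [RR, hc]
      · simp [XX, PP, RR, hc, hq]
  rcases hval x with ⟨a1, a2, a3, a4, a5, a6, a7, a8⟩ | ⟨a1, a2, a3, a4, a5, a6, a7, a8⟩ |
    ⟨a1, a2, a3, a4, a5, a6, a7, a8⟩ | ⟨a1, a2, a3, a4, a5, a6, a7, a8⟩ |
    ⟨a1, a2, a3, a4, a5, a6, a7, a8⟩ <;>
  rcases hval y with ⟨b1, b2, b3, b4, b5, b6, b7, b8⟩ | ⟨b1, b2, b3, b4, b5, b6, b7, b8⟩ |
    ⟨b1, b2, b3, b4, b5, b6, b7, b8⟩ | ⟨b1, b2, b3, b4, b5, b6, b7, b8⟩ |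
    ⟨b1, b2, b3, b4, b5, b6, b7, b8⟩ <;>
  rw [a4, a5, a6, a7, a8, b4, b5, b6, b7, b8, a3, b3] <;>
  (try simp only [a1, b1, add_zero, zero_add]) <;>
  (by_cases hx : x.v = 0 <;> by_cases hy : y.v = 0 <;> by_cases hc : c x.h + c y.h = 0 <;>
    simp [a2, b2, hx, hy, hc, c_one] <;> norm_num)

end Q30.AM
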