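import Pool.Agent.Q30.AM.Up

/-!
# The upper bound for the group of order 600
-/

set_option autoImplicit false

open scoped BigOperators
open Pool.Agent.Helper884.IC

noncomputable section

namespace Q30.AM

/-- tensors -/
def T (α β : GG → ℂ) : GG → GG → ℂ := fun x y => α x * β y

theorem om_one (j : ZMod 3) : om j 1 = 1 := (omHom j).map_one

theorem aa_one : aa 1 = 2 := by
  have : qa 1 = 2 := by decide +kernel
  change ((qa 1 : ℤ) : ℂ) = 2
  rw [this]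
  norm_num

theorem RR_one : RR 1 = 1 := if_pos c_one

theorem XX_one : XX 1 = 3 := by
  have h : PP 1 = 1 := if_pos (Or.inl (by decide +kernel))
  unfold XX
  rw [h, RR_one]
  norm_num

theorem WW_one : WW 1 = 1 := if_pos rfl

theorem DD_one : DD 1 = 1 := if_pos rfl

theorem N_T {α β : GG → ℂ} (hα : Pos α) (hβ : Pos β) {a b : ℝ} (ha : ‖α 1‖ = a) (hb : ‖β 1‖ = b)
    (r : ℝ) : N ((r : ℂ) • T α β) = |r| * (a * b) := by
  rw [N_smul, Complex.norm_real, Real.norm_eq_abs]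
  unfold T
  rw [N_tensor hα hβ, ha, hb]

def aom (j : ZMod 3) (x : GG) : ℂ := aa x * om j x
def aRR (x : GG) : ℂ := aa x * RR x

theorem FF_fun : FF = ((1 / 6 : ℝ) : ℂ) • (∑ j : ZMod 3, T (om j) (om j)) +
    ((1 / 6 : ℝ) : ℂ) • (∑ j : ZMod 3, T (aom j) (aom j)) + ((3 / 32 : ℝ) : ℂ) • T RR RR +
    ((-5 / 32 : ℝ) : ℂ) • T XX RR + ((-5 / 32 : ℝ) : ℂ) • T RR XX + ((3 / 32 : ℝ) : ℂ) • T XX XX +
    ((-3 / 8 : ℝ) : ℂ) • T aRR aRR + ((-1 : ℝ) : ℂ) • T WW DD + ((-1 : ℝ) : ℂ) • T DD WW +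
    ((2 : ℝ) : ℂ) • T DD DD := by
  funext x y
  rw [FF_eq]
  simp only [Pi.add_apply, Pi.smul_apply, smul_eq_mul, Finset.sum_apply, T, aom, aRR]
  have e : ∑ j : ZMod 3, aa x * om j x * (aa y * om j y) =
      aa x * aa y * ∑ j : ZMod 3, om j x * om j y := by
    rw [Finset.mul_sum]
    refine Finset.sum_congr rfl fun j _ => ?_
    ring
  rw [e]
  push_cast
  ring

theorem N_sum_T {α : ZMod 3 → GG → ℂ} (hα : ∀ j, Pos (α j)) {a : ℝ} (ha : ∀ j, ‖α j 1‖ = a) :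
    N (((1 / 6 : ℝ) : ℂ) • ∑ j : ZMod 3, T (α j) (α j)) ≤ 1 / 6 * (3 * (a * a)) := by
  rw [N_smul, Complex.norm_real, Real.norm_of_nonneg (by norm_num)]
  refine mul_le_mul_of_nonneg_left ?_ (by norm_num)
  refine (N_sum_le _ _).trans (le_of_eq ?_)
  have : ∀ j, N (T (α j) (α j)) = a * a := by
    intro j
    unfold T
    rw [N_tensor (hα j) (hα j), ha]
  rw [Finset.sum_congr rfl fun j _ => this j, Finset.sum_const, nsmul_eq_mul]
  norm_num

theorem N_FF : N FF ≤ 79 / 8 := by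
  have n1 : ‖RR 1‖ = 1 := by rw [RR_one]; simp
  have n3 : ‖XX 1‖ = 3 := by rw [XX_one]; simp
  have nW : ‖WW 1‖ = 1 := by rw [WW_one]; simp
  have nD : ‖DD 1‖ = 1 := by rw [DD_one]; simp
  have na : ‖aRR 1‖ = 2 := by
    unfold aRR
    rw [aa_one, RR_one]; simp
  have pa : Pos aRR := pos_aRR
  rw [FF_fun]
  have h1 := N_sum_T (α := om) pos_om (a := 1) (fun j => by rw [om_one]; simp)
  have h2 := N_sum_T (α := aom) pos_aom (a := 2) (fun j => by
    unfold aom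
    rw [om_one, aa_one]; simp)
  have h3 := N_T pos_RR pos_RR n1 n1 (3 / 32)
  have h4 := N_T pos_XX pos_RR n3 n1 (-5 / 32)
  have h5 := N_T pos_RR pos_XX n1 n3 (-5 / 32)
  have h6 := N_T pos_XX pos_XX n3 n3 (3 / 32)
  have h7 := N_T pa pa na na (-3 / 8)
  have h8 := N_T pos_WW pos_DD nW nD (-1)
  have h9 := N_T pos_DD pos_WW nD nW (-1)
  have h10 := N_T pos_DD pos_DD nD nD 2
  have a1 : |(3 / 32 : ℝ)| = 3 / 32 := abs_of_nonneg (by norm_num)
  have a2 : |(-5 / 32 : ℝ)| = 5 / 32 := by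
    rw [abs_of_neg (by norm_num)]; norm_num
  have a3 : |(-3 / 8 : ℝ)| = 3 / 8 := by
    rw [abs_of_neg (by norm_num)]; norm_num
  have a4 : |(-1 : ℝ)| = 1 := by norm_num
  have a5 : |(2 : ℝ)| = 2 := by norm_num
  rw [a1] at h3 h6
  rw [a2] at h4 h5
  rw [a3] at h7
  rw [a4] at h8 h9
  rw [a5] at h10
  refine ((N_add _ _).trans (add_le_add ((N_add _ _).trans (add_le_add ((N_add _ _).trans
    (add_le_add ((N_add _ _).trans (add_le_add ((N_add _ _).trans (add_le_add ((N_add _ _).trans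
    (add_le_add ((N_add _ _).trans (add_le_add ((N_add _ _).trans (add_le_add ((N_add _ _).trans
    (add_le_add h1 h2)) h3.le)) h4.le)) h5.le)) h6.le)) h7.le)) h8.le)) h9.le)) h10.le)).trans ?_
  norm_num

end Q30.AM
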